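import Pool.Agent.Lib.H72G.D

/-! # H72G, chunk A1: the linear symmetries form a group -/

set_option autoImplicit false

open scoped Quaternion

noncomputable section

namespace H72G

open H72R

variable {φ : Flow ℝ S3} {A B : L}

private theorem pt {A : L} (hA : ∀ v, ‖A v‖ = ‖v‖) (x : S3) : ∃ y : S3, y.1 = A x.1 :=
  ⟨⟨A x.1, mem_sphere_zero_iff_norm.2 (by rw [hA]; exact mem_sphere_zero_iff_norm.1 x.2)⟩, rfl⟩

theorem com_one (φ : Flow ℝ S3) : Com φ 1 := by
  refine ⟨fun v => rfl, fun t x y hy => ?_⟩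
  have : y = x := Subtype.ext hy
  rw [this]
  rfl

theorem com_mul (hA : Com φ A) (hB : Com φ B) : Com φ (A * B) := by
  refine ⟨fun v => ?_, fun t x y hy => ?_⟩
  · rw [mul_apply_eq_comp, hA.1, hB.1]
  · obtain ⟨z, hz⟩ := pt hB.1 x
    rw [hA.2 t z y (by rw [hy, mul_apply_eq_comp, hz]), hB.2 t x z hz, mul_apply_eq_comp]

theorem com_pow (hA : Com φ A) (n : ℕ) : Com φ (A ^ n) := by
  induction n with
  | zero =>
    rw [pow_zero]
    exact com_one φ
  | succ n ih =>
    rw [pow_succ]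
    exact com_mul ih hA

theorem com_cancel (hA : Com φ A) (hAB : Com φ (A * B)) : Com φ B := by
  have hinj : ∀ {u v : E}, A u = A v → u = v := fun {u v} h => by
    have : ‖u - v‖ = 0 := by rw [← hA.1, map_sub, h, sub_self, norm_zero]
    exact sub_eq_zero.1 (norm_eq_zero.1 this)
  have hB : ∀ v, ‖B v‖ = ‖v‖ := fun v => by
    have := hAB.1 v
    rwa [mul_apply_eq_comp, hA.1] at this
  refine ⟨hB, fun t x y hy => ?_⟩
  obtain ⟨z, hz⟩ := pt hA.1 y
  have h1 := hA.2 t y z hz
  have h2 := hAB.2 t x z (by rw [hz, hy, mul_apply_eq_comp])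
  rw [h1, mul_apply_eq_comp] at h2
  exact hinj h2

end H72G
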