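import Pool.Agent.Lib.H72G.D

/-! # H72G, chunk A2: the linear symmetries form a closed set -/

set_option autoImplicit false

open scoped Quaternion

noncomputable section

namespace H72G

open H72R Filter

/-- (A2, S) limits of linear symmetries are linear symmetries.
PROOF. `A_n v → A v` for every `v` (evaluation is continuous), so the norms agree. If `y = A x`, let `y_n : S3` be the
point with `y_n.1 = A_n x.1`; `y_n → y` in `S3` (`tendsto_subtype_rng`), so `φ t y_n → φ t y`
(`φ.continuous`-type lemma: `(φ.continuous_toFun t)` or `φ.continuous continuous_const continuous_id`), and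
`(φ t y_n).1 = A_n (φ t x).1 → A (φ t x).1`. Limits are unique. -/
theorem com_lim {φ : Flow ℝ S3} {A : ℕ → L} {A' : L} (h : ∀ n, Com φ (A n)) (hl : Tendsto A atTop (nhds A')) :
    Com φ A' := by
  have hev : ∀ v : E, Tendsto (fun n => A n v) atTop (nhds (A' v)) := fun v =>
    ((ContinuousLinearMap.apply ℝ E v).continuous.tendsto A').comp hl
  refine ⟨fun v => ?_, fun t x y hxy => ?_⟩
  · have h1 : Tendsto (fun n => ‖A n v‖) atTop (nhds ‖A' v‖) := (hev v).norm
    have h2 : (fun n => ‖A n v‖) = fun _ => ‖v‖ := funext fun n => (h n).1 v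
    rw [h2] at h1
    exact tendsto_nhds_unique h1 tendsto_const_nhds
  · have hn : ∀ n, A n x.1 ∈ Metric.sphere (0 : E) 1 := fun n => by
      rw [mem_sphere_zero_iff_norm, (h n).1]
      exact mem_sphere_zero_iff_norm.1 x.2
    let yn : ℕ → S3 := fun n => ⟨A n x.1, hn n⟩
    have h1 : Tendsto yn atTop (nhds y) := by
      rw [tendsto_subtype_rng]
      rw [hxy]
      exact hev x.1
    have h2 : Continuous (fun z : S3 => (φ t z).1) :=
      continuous_subtype_val.comp (φ.continuous continuous_const continuous_id)
    have h3 : Tendsto (fun n => (φ t (yn n)).1) atTop (nhds (φ t y).1) := (h2.tendsto y).comp h1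
    have h4 : (fun n => (φ t (yn n)).1) = fun n => A n (φ t x).1 := funext fun n => (h n).2 t x (yn n) rfl
    rw [h4] at h3
    exact tendsto_nhds_unique h3 (hev _)

end H72G
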