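import Pool.Agent.Lib.H72G.D

/-! # H72G, chunk A3: a linear symmetry of a minimal flow with a fixed vector is the identity -/

set_option autoImplicit false

open scoped Quaternion

noncomputable section

namespace H72G

open H72R

/-- (A3, S) PROOF. `s = {x : S3 | A x.1 = x.1}` is closed, nonempty (`v / ‖v‖`) and invariant (`Com` with `y = x`;
`IsInvariant φ.toFun s` is `∀ t, MapsTo (φ.toFun t) s s`), so `s = univ` by minimality, `A x = x` on the sphere, and
`A = 1` by scaling. -/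
theorem com_fixed {φ : Flow ℝ S3} (hm : MinimalFlow φ) {A : L} (hA : Com φ A) {v : E} (hv : v ≠ 0)
    (h : A v = v) : A = 1 := by
  have hs : ({x : S3 | A x.1 = x.1} : Set S3) = Set.univ := by
    refine hm _ ?_ ?_ ?_
    · exact isClosed_eq (A.continuous.comp continuous_subtype_val) continuous_subtype_val
    · have hn : ‖v‖ ≠ 0 := norm_ne_zero_iff.2 hv
      refine ⟨⟨‖v‖⁻¹ • v, ?_⟩, ?_⟩
      · rw [mem_sphere_zero_iff_norm, norm_smul, norm_inv, norm_norm, inv_mul_cancel₀ hn]
      · show A (‖v‖⁻¹ • v) = ‖v‖⁻¹ • v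
        rw [map_smul, h]
    · intro t x hx
      exact (hA.2 t x x (Eq.symm hx)).symm
  refine ContinuousLinearMap.ext fun w => ?_
  by_cases hw : w = 0
  · rw [hw, map_zero, map_zero]
  · have hn : ‖w‖ ≠ 0 := norm_ne_zero_iff.2 hw
    have hmem : ‖w‖⁻¹ • w ∈ Metric.sphere (0 : E) 1 := by
      rw [mem_sphere_zero_iff_norm, norm_smul, norm_inv, norm_norm, inv_mul_cancel₀ hn]
    have h1 : (⟨‖w‖⁻¹ • w, hmem⟩ : S3) ∈ ({x : S3 | A x.1 = x.1} : Set S3) := by
      rw [hs]
      exact Set.mem_univ _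
    have h2 : A (‖w‖⁻¹ • w) = ‖w‖⁻¹ • w := h1
    rw [map_smul] at h2
    have h3 := congrArg (fun u => ‖w‖ • u) h2
    simp only [smul_smul, mul_inv_cancel₀ hn, one_smul] at h3
    exact h3

end H72G
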