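import Pool.Agent.Lib.H72G.D

/-! # H72G, chunk B1: a one-parameter group as a limit of powers -/

set_option autoImplicit false

open scoped Quaternion

noncomputable section

namespace H72G

open H72R Filter

private theorem pow_sub_gen {A : Type} [NormedRing A] [NormOneClass A] (B C : A) (hB : ‖B‖ ≤ 1) (c : ℝ)
    (hc : 1 ≤ c) (hC : ‖C‖ ≤ c) (k : ℕ) : ‖B ^ k - C ^ k‖ ≤ k * c ^ k * ‖B - C‖ := by
  have hc0 : 0 ≤ c := zero_le_one.trans hc
  induction k with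
  | zero => simp
  | succ k ih =>
    have h1 : B ^ (k + 1) - C ^ (k + 1) = B * (B ^ k - C ^ k) + (B - C) * C ^ k := by
      rw [pow_succ' B, pow_succ' C, mul_sub, sub_mul]
      abel
    have hCk : ‖C ^ k‖ ≤ c ^ k :=
      (norm_pow_le C k).trans (pow_le_pow_left₀ (norm_nonneg C) hC k)
    have h2 : ‖B * (B ^ k - C ^ k)‖ ≤ k * c ^ k * ‖B - C‖ :=
      (norm_mul_le _ _).trans ((mul_le_of_le_one_left (norm_nonneg _) hB).trans ih)
    have h3 : ‖(B - C) * C ^ k‖ ≤ c ^ k * ‖B - C‖ :=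
      (norm_mul_le _ _).trans (by rw [mul_comm]; exact mul_le_mul_of_nonneg_right hCk (norm_nonneg _))
    have h4 : c ^ k ≤ c ^ (k + 1) := pow_le_pow_right₀ hc (Nat.le_succ k)
    rw [h1]
    refine (norm_add_le _ _).trans ((add_le_add h2 h3).trans ?_)
    have h5 : (k : ℝ) * c ^ k * ‖B - C‖ + c ^ k * ‖B - C‖ = (k + 1) * c ^ k * ‖B - C‖ := by ring
    rw [h5]
    push_cast
    exact mul_le_mul_of_nonneg_right (mul_le_mul_of_nonneg_left h4 (by positivity)) (norm_nonneg _)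

/-- (B1a, M) telescoping. PROOF. `B ^ (k+1) - C ^ (k+1) = B * (B ^ k - C ^ k) + (B - C) * C ^ k`, induction on `k`,
`‖B‖ ≤ 1`, `‖C ^ k‖ ≤ c ^ k` (`norm_pow_le`, `L` is a normed ring with `‖1‖ ≤ 1`). -/
theorem pow_sub (B C : L) (hB : ‖B‖ ≤ 1) (c : ℝ) (hc : 1 ≤ c) (hC : ‖C‖ ≤ c) (k : ℕ) :
    ‖B ^ k - C ^ k‖ ≤ k * c ^ k * ‖B - C‖ :=
  pow_sub_gen B C hB c hc hC k

private theorem floor_lim (e : ℕ → ℝ) (he : ∀ n, 0 < e n) (hl : Tendsto e atTop (nhds 0)) (t : ℝ)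
    (ht : 0 ≤ t) : Tendsto (fun n => (⌊t / e n⌋₊ : ℝ) * e n) atTop (nhds t) := by
  have h1 : Tendsto (fun n => t - e n) atTop (nhds t) := by
    simpa using tendsto_const_nhds.sub hl
  refine tendsto_of_tendsto_of_tendsto_of_le_of_le h1 tendsto_const_nhds (fun n => ?_) (fun n => ?_)
  · have h2 := Nat.lt_floor_add_one (t / e n)
    rw [div_lt_iff₀ (he n)] at h2
    show t - e n ≤ (⌊t / e n⌋₊ : ℝ) * e n
    linarith
  · have h2 := Nat.floor_le (div_nonneg ht (he n).le)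
    rw [le_div_iff₀ (he n)] at h2
    exact h2

private theorem limit_gen {A : Type} [NormedRing A] [NormOneClass A] [NormedAlgebra ℝ A] [CompleteSpace A]
    [ProperSpace A] (B : ℕ → A) (hBn : ∀ n, ‖B n‖ ≤ 1) (h1 : ∀ n, B n ≠ 1)
    (hl : Tendsto (fun n => ‖B n - 1‖) atTop (nhds 0)) :
    ∃ X : A, ‖X‖ = 1 ∧ ∃ (σ : ℕ → ℕ) (k : ℝ → ℕ → ℕ), ∀ t : ℝ, 0 ≤ t →
      Tendsto (fun n => (B (σ n)) ^ (k t n)) atTop (nhds (NormedSpace.exp (t • X))) := by
  let _ : NormedAlgebra ℚ A := NormedAlgebra.restrictScalars ℚ ℝ A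
  have he : ∀ n, 0 < ‖B n - 1‖ := fun n => norm_pos_iff.2 (sub_ne_zero.2 (h1 n))
  obtain ⟨X, hX, σ, hσ, hlim⟩ := (isCompact_sphere (0 : A) 1).tendsto_subseq
    (x := fun n => (‖B n - 1‖)⁻¹ • (B n - 1)) (fun n => by
      rw [mem_sphere_zero_iff_norm, norm_smul, norm_inv, norm_norm]
      exact inv_mul_cancel₀ (he n).ne')
  rw [mem_sphere_zero_iff_norm] at hX
  refine ⟨X, hX, σ, fun t n => ⌊t / ‖B (σ n) - 1‖⌋₊, fun t ht => ?_⟩
  set e : ℕ → ℝ := fun n => ‖B (σ n) - 1‖ with hedef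
  have he' : ∀ n, 0 < e n := fun n => he (σ n)
  have hel : Tendsto e atTop (nhds 0) := hl.comp hσ.tendsto_atTop
  have hel' : Tendsto e atTop (nhdsWithin 0 {0}ᶜ) :=
    tendsto_nhdsWithin_iff.2 ⟨hel, Eventually.of_forall fun n => (he' n).ne'⟩
  set C : ℕ → A := fun n => NormedSpace.exp (e n • X) with hCdef
  have hd : Tendsto (fun n => (e n)⁻¹ • (C n - 1)) atTop (nhds X) := by
    have h := hasDerivAt_exp_smul_const X (0 : ℝ)
    rw [hasDerivAt_iff_tendsto_slope_zero] at h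
    have h2 := h.comp hel'
    rw [zero_smul, NormedSpace.exp_zero, one_mul] at h2
    refine h2.congr fun n => ?_
    simp only [Function.comp_apply, zero_add, hCdef]
  have hdiff : Tendsto (fun n => ‖(e n)⁻¹ • (B (σ n) - C n)‖) atTop (nhds 0) := by
    have h : Tendsto (fun n => ‖(e n)⁻¹ • (B (σ n) - 1) - (e n)⁻¹ • (C n - 1)‖) atTop (nhds ‖X - X‖) :=
      (Tendsto.sub hlim hd).norm
    rw [sub_self, norm_zero] at h
    refine h.congr fun n => ?_
    rw [← smul_sub, sub_sub_sub_cancel_right]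
  have hCn : ∀ᶠ n in atTop, ‖C n‖ ≤ Real.exp (2 * e n) := by
    have h : Tendsto (fun n => ‖(e n)⁻¹ • (C n - 1)‖) atTop (nhds 1) := by
      rw [← hX]; exact hd.norm
    filter_upwards [h.eventually (gt_mem_nhds (one_lt_two : (1 : ℝ) < 2))] with n hn
    rw [norm_smul, norm_inv, Real.norm_of_nonneg (he' n).le, inv_mul_lt_iff₀ (he' n)] at hn
    have h3 : ‖C n‖ ≤ ‖C n - 1‖ + ‖(1 : A)‖ := by
      have := norm_add_le (C n - 1) (1 : A)
      rwa [sub_add_cancel] at this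
    rw [norm_one] at h3
    have h5 := Real.add_one_le_exp (2 * e n)
    linarith
  have hfl := floor_lim e he' hel t ht
  have hpow : Tendsto (fun n => C n ^ ⌊t / e n⌋₊) atTop (nhds (NormedSpace.exp (t • X))) := by
    have h : Tendsto (fun n => NormedSpace.exp (((⌊t / e n⌋₊ : ℝ) * e n) • X)) atTop
        (nhds (NormedSpace.exp (t • X))) :=
      (NormedSpace.exp_continuous.tendsto (t • X)).comp (hfl.smul_const X)
    refine h.congr fun n => ?_
    rw [hCdef]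
    show _ = NormedSpace.exp (e n • X) ^ ⌊t / e n⌋₊
    rw [← NormedSpace.exp_nsmul, mul_smul, Nat.cast_smul_eq_nsmul]
  have hz : Tendsto (fun n => B (σ n) ^ ⌊t / e n⌋₊ - C n ^ ⌊t / e n⌋₊) atTop (nhds 0) := by
    rw [tendsto_zero_iff_norm_tendsto_zero]
    have hb : Tendsto (fun n => t * Real.exp (2 * t) * ‖(e n)⁻¹ • (B (σ n) - C n)‖) atTop (nhds 0) := by
      simpa using hdiff.const_mul (t * Real.exp (2 * t))
    refine squeeze_zero' (Eventually.of_forall fun n => norm_nonneg _) ?_ hb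
    filter_upwards [hCn] with n hn
    have hk : (⌊t / e n⌋₊ : ℝ) * e n ≤ t := by
      have h2 := Nat.floor_le (div_nonneg ht (he' n).le)
      rwa [le_div_iff₀ (he' n)] at h2
    have h3 := pow_sub_gen (B (σ n)) (C n) (hBn _) (Real.exp (2 * e n))
      (Real.one_le_exp (by have := he' n; positivity)) hn ⌊t / e n⌋₊
    have h4 : Real.exp (2 * e n) ^ ⌊t / e n⌋₊ ≤ Real.exp (2 * t) := by
      rw [← Real.exp_nat_mul]
      exact Real.exp_le_exp.2 (by nlinarith)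
    have h5 : ‖B (σ n) - C n‖ = e n * ‖(e n)⁻¹ • (B (σ n) - C n)‖ := by
      rw [norm_smul, norm_inv, Real.norm_of_nonneg (he' n).le, ← mul_assoc, mul_inv_cancel₀ (he' n).ne', one_mul]
    refine h3.trans ?_
    rw [h5]
    calc (⌊t / e n⌋₊ : ℝ) * Real.exp (2 * e n) ^ ⌊t / e n⌋₊ * (e n * ‖(e n)⁻¹ • (B (σ n) - C n)‖)
        = ((⌊t / e n⌋₊ : ℝ) * e n) * Real.exp (2 * e n) ^ ⌊t / e n⌋₊ * ‖(e n)⁻¹ • (B (σ n) - C n)‖ := by ring
      _ ≤ t * Real.exp (2 * t) * ‖(e n)⁻¹ • (B (σ n) - C n)‖ :=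
          mul_le_mul_of_nonneg_right (mul_le_mul hk h4 (by positivity) ht) (norm_nonneg _)
  have h := hz.add hpow
  rw [zero_add] at h
  refine h.congr fun n => ?_
  show B (σ n) ^ ⌊t / e n⌋₊ - C n ^ ⌊t / e n⌋₊ + C n ^ ⌊t / e n⌋₊ = B (σ n) ^ ⌊t / e n⌋₊
  rw [sub_add_cancel]

/-- (B1b, M/L) PROOF. `e n = ‖B n - 1‖ > 0`, `X n = (e n)⁻¹ • (B n - 1)` has norm one; a subsequence `σ` of `X n`
converges (the unit sphere of the finite dimensional space `L` is compact, `IsCompact.tendsto_subseq`) to `X`, `‖X‖ = 1`.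
`k t n = ⌊t / e (σ n)⌋₊`. Write `e`, `B` for `e (σ n)`, `B (σ n)`, `C = exp (e • X)`. Then
`B - C = e • (X (σ n) - X) - (exp (e • X) - 1 - e • X)`, and `(exp (e • X) - 1 - e • X) / e → 0` (derivative of
`s ↦ exp (s • X)` at `0`, `hasDerivAt_exp_smul_const`), so `‖B - C‖ / e → 0`. `pow_sub` with `c = Real.exp e`
(`NormedSpace.norm_exp_le`-type bound; or the weaker constant `c = 1 + 2 e` for small `e` from the derivative),
`k e ≤ t`, `c ^ k ≤ exp t` (or `exp (2 t)`): `‖B ^ k - C ^ k‖ ≤ t exp (2 t) ‖B - C‖ / e → 0`. Finally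
`C ^ k = exp ((k e) • X)` (`NormedSpace.exp_nsmul`-type lemma) and `k e → t`, `exp` is continuous. -/
theorem limit (B : ℕ → L) (hB : ∀ n v, ‖B n v‖ = ‖v‖) (h1 : ∀ n, B n ≠ 1)
    (hl : Tendsto (fun n => ‖B n - 1‖) atTop (nhds 0)) :
    ∃ X : L, ‖X‖ = 1 ∧ ∃ (σ : ℕ → ℕ) (k : ℝ → ℕ → ℕ), ∀ t : ℝ, 0 ≤ t →
      Tendsto (fun n => (B (σ n)) ^ (k t n)) atTop (nhds (NormedSpace.exp (t • X))) := by
  have : ProperSpace L := FiniteDimensional.proper_real L
  exact limit_gen B (fun n => ContinuousLinearMap.opNorm_le_bound _ zero_le_one fun v => by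
    rw [hB n v, one_mul]) h1 hl

end H72G
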