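import Pool.Agent.Lib.H72G.D

/-! # H72G, chunk B2: the generator of a group of isometries is skew; exponentials on an eigenplane -/

set_option autoImplicit false

open scoped Quaternion

noncomputable section

namespace H72G

open H72R

private theorem exp_neg_mul_gen {A : Type} [NormedRing A] [NormedAlgebra ℝ A] [CompleteSpace A]
    (X : A) (t : ℝ) : NormedSpace.exp ((-t) • X) * NormedSpace.exp (t • X) = 1 := by
  let _ : NormedAlgebra ℚ A := NormedAlgebra.restrictScalars ℚ ℝ A
  have hc : Commute ((-t) • X) (t • X) := ((Commute.refl X).smul_left (-t)).smul_right t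
  rw [← NormedSpace.exp_add_of_commute hc]
  have : (-t) • X + t • X = 0 := by rw [neg_smul]; exact neg_add_cancel _
  rw [this, NormedSpace.exp_zero]

private theorem exp_neg_mul (X : L) (t : ℝ) :
    NormedSpace.exp ((-t) • X) * NormedSpace.exp (t • X) = 1 :=
  exp_neg_mul_gen (A := L) X t

private theorem exp_zero_smul (X : L) (v : E) : NormedSpace.exp ((0 : ℝ) • X) v = v := by
  have h0 : (0 : ℝ) • X = 0 := zero_smul ℝ X
  have h1 : NormedSpace.exp (0 : L) = 1 := NormedSpace.exp_zero
  rw [h0, h1]
  rfl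

private theorem hasDerivAt_vec (X : L) (v : E) (t : ℝ) :
    HasDerivAt (fun s : ℝ => NormedSpace.exp (s • X) v) (NormedSpace.exp (t • X) (X v)) t := by
  have h := hasDerivAt_exp_smul_const (𝕂 := ℝ) X t
  have h2 := h.clm_apply (hasDerivAt_const t v)
  simpa using h2

/-- (B2a, S/M) PROOF. For `t < 0` the map `exp (t • X)` is the inverse of `exp (-t • X)`, so it preserves norms too.
`s ↦ ‖exp (s • X) v‖ ^ 2` is constant; its derivative at `0` is `2 ⟪X v, v⟫` (`hasDerivAt_exp_smul_const`,
`HasDerivAt.norm_sq` or the derivative of the inner product). -/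
theorem skew (X : L) (h : ∀ t : ℝ, 0 ≤ t → ∀ v : E, ‖NormedSpace.exp (t • X) v‖ = ‖v‖) (v : E) :
    inner ℝ (X v) v = 0 := by
  have hall : ∀ t : ℝ, ∀ w : E, ‖NormedSpace.exp (t • X) w‖ = ‖w‖ := by
    intro t w
    rcases le_total 0 t with ht | ht
    · exact h t ht w
    · have h1 := h (-t) (by linarith) (NormedSpace.exp (t • X) w)
      have h2 : NormedSpace.exp ((-t) • X) (NormedSpace.exp (t • X) w) = w := by
        have := exp_neg_mul X t
        have h3 := congrArg (fun T : L => T w) this
        simpa using h3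
      rw [h2] at h1
      exact h1.symm
  have hd := hasDerivAt_vec X v 0
  have hd2 := hd.inner ℝ hd
  have hconst : (fun s : ℝ => inner ℝ (NormedSpace.exp (s • X) v) (NormedSpace.exp (s • X) v))
      = fun _ : ℝ => ‖v‖ ^ 2 := by
    funext s
    rw [real_inner_self_eq_norm_sq, hall s v]
  have hd3 := hd2
  rw [hconst] at hd3
  have h0 := hd3.unique (hasDerivAt_const (0 : ℝ) (‖v‖ ^ 2))
  rw [exp_zero_smul, exp_zero_smul] at h0
  rw [real_inner_comm (X v) v] at h0
  linarith

/-- (B2b, S/M) PROOF. The derivative of `s ↦ exp (-s • X) (cos (l s) • v + (sin (l s) / l) • X v)` is zero (use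
`X (X v) = -l ^ 2 • v`), so it is constantly `v`; apply `exp (t • X)`. -/
theorem exp_vec (X : L) {v : E} {l : ℝ} (hl : 0 < l) (h : X (X v) = -(l ^ 2) • v) (t : ℝ) :
    NormedSpace.exp (t • X) v = Real.cos (l * t) • v + (Real.sin (l * t) / l) • X v := by
  have hlne : l ≠ 0 := hl.ne'
  set g : ℝ → E := fun s => Real.cos (l * s) • v + (Real.sin (l * s) / l) • X v with hg
  have hgd : ∀ s : ℝ, HasDerivAt g (X (g s)) s := by
    intro s
    have hls : HasDerivAt (fun s : ℝ => l * s) l s := by
      simpa using (hasDerivAt_id s).const_mul l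
    have hc : HasDerivAt (fun s : ℝ => Real.cos (l * s)) (-Real.sin (l * s) * l) s := hls.cos
    have hs : HasDerivAt (fun s : ℝ => Real.sin (l * s) / l) (Real.cos (l * s) * l / l) s :=
      hls.sin.div_const l
    have h1 := (hc.smul_const v).add (hs.smul_const (X v))
    have heq : (-Real.sin (l * s) * l) • v + (Real.cos (l * s) * l / l) • X v = X (g s) := by
      simp only [hg, map_add, map_smul, h, smul_smul]
      rw [mul_div_assoc, div_self hlne, mul_one, add_comm]
      congr 1
      congr 1
      field_simp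
    rw [← heq]
    exact h1
  have hF : ∀ s : ℝ, HasDerivAt (fun s : ℝ => NormedSpace.exp ((-s) • X) (g s)) 0 s := by
    intro s
    have he : HasDerivAt (fun s : ℝ => NormedSpace.exp ((-s) • X))
        ((-1 : ℝ) • (NormedSpace.exp ((-s) • X) * X)) s := by
      have h1 := hasDerivAt_exp_smul_const (𝕂 := ℝ) X (-s)
      have h2 : HasDerivAt (fun s : ℝ => -s) (-1) s := hasDerivAt_neg s
      exact h1.scomp s h2
    have h3 := he.clm_apply (hgd s)
    have h4 : ((-1 : ℝ) • (NormedSpace.exp ((-s) • X) * X)) (g s)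
        + NormedSpace.exp ((-s) • X) (X (g s)) = 0 := by
      simp
    rw [h4] at h3
    exact h3
  have hconst : ∀ s : ℝ, NormedSpace.exp ((-s) • X) (g s) = v := by
    intro s
    have h1 : (fun s : ℝ => NormedSpace.exp ((-s) • X) (g s)) s
        = (fun s : ℝ => NormedSpace.exp ((-s) • X) (g s)) 0 :=
      is_const_of_deriv_eq_zero (fun s => (hF s).differentiableAt) (fun s => (hF s).deriv) s 0
    have h2 : NormedSpace.exp ((-(0 : ℝ)) • X) (g 0) = v := by
      have h3 : g 0 = v := by simp [hg]
      rw [h3, neg_zero]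
      exact exp_zero_smul X v
    exact h1.trans h2
  have h5 := hconst t
  have h6 : NormedSpace.exp (t • X) (NormedSpace.exp ((-t) • X) (g t)) = g t := by
    have := exp_neg_mul X (-t)
    rw [neg_neg] at this
    have h7 := congrArg (fun T : L => T (g t)) this
    simpa using h7
  rw [h5] at h6
  exact h6

/-- (B2c, S) PROOF. The derivative of `s ↦ exp (s • X) v` is `exp (s • X) (X v) = 0`. -/
theorem exp_ker (X : L) {v : E} (h : X v = 0) (t : ℝ) : NormedSpace.exp (t • X) v = v := by
  have hd : ∀ s : ℝ, HasDerivAt (fun s : ℝ => NormedSpace.exp (s • X) v) 0 s := by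
    intro s
    have h1 := hasDerivAt_vec X v s
    rw [h, map_zero] at h1
    exact h1
  have h1 : (fun s : ℝ => NormedSpace.exp (s • X) v) t
      = (fun s : ℝ => NormedSpace.exp (s • X) v) 0 :=
    is_const_of_deriv_eq_zero (fun s => (hd s).differentiableAt) (fun s => (hd s).deriv) t 0
  exact h1.trans (exp_zero_smul X v)

/-- (B2d, S) PROOF. The derivative of the constant function `s ↦ exp (s • X)`, `0 ≤ s`, at `s = 1` is
`X * exp X = X`, so `X = 0` (uniqueness of the derivative, `HasDerivAt.unique`, the function is `1` near `1`). -/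
theorem gen_zero (X : L) (h : ∀ t : ℝ, 0 ≤ t → NormedSpace.exp (t • X) = 1) : X = 0 := by
  have h1 := hasDerivAt_exp_smul_const' (𝕂 := ℝ) X (1 : ℝ)
  have h2 : HasDerivAt (fun u : ℝ => NormedSpace.exp (u • X)) (0 : L) 1 := by
    have h3 : HasDerivAt (fun _ : ℝ => (1 : L)) (0 : L) 1 := hasDerivAt_const _ _
    refine h3.congr_of_eventuallyEq ?_
    filter_upwards [lt_mem_nhds (show (0 : ℝ) < 1 by norm_num)] with u hu
    exact h u hu.le
  have h3 := h1.unique h2
  rw [h 1 zero_le_one, mul_one] at h3
  exact h3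

end H72G
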