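import Pool.Agent.Lib.H72G.D

/-! # H72G, chunk B3: the extreme eigenvectors of the square of a skew map -/

set_option autoImplicit false

open scoped Quaternion

noncomputable section

namespace H72G

open H72R

private theorem skew_polar (X : L) (hs : ∀ v, inner ℝ (X v) v = 0) (u w : E) :
    inner ℝ (X u) w = -inner ℝ u (X w) := by
  have h1 := hs (u + w)
  rw [map_add, inner_add_left, inner_add_right, inner_add_right, hs u, hs w] at h1
  rw [real_inner_comm (X w) u]
  linarith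

private theorem quad_zero (a b : ℝ) (h : ∀ s : ℝ, 0 ≤ a * s ^ 2 + 2 * b * s) : b = 0 := by
  have h1 : discrim a (2 * b) 0 ≤ 0 := by
    apply discrim_le_zero
    intro x
    have h2 := h x
    nlinarith [h2]
  rw [discrim] at h1
  have h3 : b ^ 2 ≤ 0 := by nlinarith
  exact pow_eq_zero_iff (two_ne_zero) |>.1 (le_antisymm h3 (sq_nonneg b))

private theorem expand (X : L) (k : ℝ) (v u : E) (s : ℝ) :
    inner ℝ (X (v + s • u)) (X (v + s • u)) - k * inner ℝ (v + s • u) (v + s • u) =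
      (inner ℝ (X v) (X v) - k * inner ℝ v v) +
      (inner ℝ (X u) (X u) - k * inner ℝ u u) * s ^ 2 +
      2 * (inner ℝ (X v) (X u) - k * inner ℝ v u) * s := by
  rw [map_add, map_smul]
  simp only [inner_add_left, inner_add_right, real_inner_smul_left, real_inner_smul_right]
  rw [real_inner_comm (X v) (X u), real_inner_comm v u]
  ring

private theorem crit (X : L) (hs : ∀ v, inner ℝ (X v) v = 0) (k : ℝ) (v : E)
    (hb : ∀ u, inner ℝ (X v) (X u) - k * inner ℝ v u = 0) : X (X v) = -k • v := by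
  rw [← sub_eq_zero]
  apply ext_inner_right ℝ
  intro u
  rw [inner_sub_left, skew_polar X hs, real_inner_smul_left, inner_zero_left]
  have := hb u
  linarith

private theorem scale (X : L) (u : E) (hu : u ≠ 0) :
    ∃ u', ‖u'‖ = 1 ∧ ‖X u'‖ * ‖u‖ = ‖X u‖ := by
  have h0 : ‖u‖ ≠ 0 := norm_ne_zero_iff.2 hu
  refine ⟨‖u‖⁻¹ • u, ?_, ?_⟩
  · rw [norm_smul, norm_inv, norm_norm, inv_mul_cancel₀ h0]
  · rw [map_smul, norm_smul, norm_inv, norm_norm]
    field_simp

/-- (B3, M) PROOF. `⟪X u, u'⟫ = -⟪u, X u'⟫` by polarisation of `hs`. `P = -X * X` is symmetric with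
`⟪P u, u⟫ = ‖X u‖ ^ 2`. On the compact unit sphere `‖X u‖` has a maximum `l` at `v` and a minimum `m` at `w`. They are
eigenvectors of `P`: `IsSelfAdjoint.hasEigenvector_of_isMaxOn` / `...isMinOn`-type lemmas
(`Mathlib/Analysis/InnerProductSpace/Rayleigh.lean`), or by hand: for the maximum, `⟪(l ^ 2 - P) u, u⟫ ≥ 0` for all `u`,
with equality at `v`, so `(l ^ 2 - P) v = 0` (Cauchy-Schwarz for a positive form: expand at `v + s u`, `s → 0`). -/
theorem eigen (X : L) (hs : ∀ v, inner ℝ (X v) v = 0) :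
    ∃ (l m : ℝ) (v w : E), 0 ≤ m ∧ m ≤ l ∧ ‖v‖ = 1 ∧ ‖w‖ = 1 ∧ X (X v) = -(l ^ 2) • v ∧
      X (X w) = -(m ^ 2) • w ∧ (∀ u, m * ‖u‖ ≤ ‖X u‖) ∧ ∀ u, ‖X u‖ ≤ l * ‖u‖ := by
  have hc : IsCompact (Metric.sphere (0 : E) 1) := isCompact_sphere 0 1
  have hne : (Metric.sphere (0 : E) 1).Nonempty := by
    refine ⟨EuclideanSpace.single 0 1, ?_⟩
    simp
  have hf : ContinuousOn (fun u : E => ‖X u‖) (Metric.sphere (0 : E) 1) :=
    (X.continuous.norm).continuousOn
  obtain ⟨v, hv, hmax⟩ := hc.exists_isMaxOn hne hf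
  obtain ⟨w, hw, hmin⟩ := hc.exists_isMinOn hne hf
  rw [mem_sphere_zero_iff_norm] at hv hw
  have hM : ∀ u, ‖X u‖ ≤ ‖X v‖ * ‖u‖ := by
    intro u
    by_cases hu : u = 0
    · subst hu
      simp
    · obtain ⟨u', h1, h2⟩ := scale X u hu
      rw [← h2]
      have h3 : ‖X u'‖ ≤ ‖X v‖ := hmax (mem_sphere_zero_iff_norm.2 h1)
      exact mul_le_mul_of_nonneg_right h3 (norm_nonneg u)
  have hm : ∀ u, ‖X w‖ * ‖u‖ ≤ ‖X u‖ := by
    intro u
    by_cases hu : u = 0
    · subst hu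
      simp
    · obtain ⟨u', h1, h2⟩ := scale X u hu
      rw [← h2]
      have h3 : ‖X w‖ ≤ ‖X u'‖ := hmin (mem_sphere_zero_iff_norm.2 h1)
      exact mul_le_mul_of_nonneg_right h3 (norm_nonneg u)
  refine ⟨‖X v‖, ‖X w‖, v, w, norm_nonneg _, ?_, hv, hw, ?_, ?_, hm, hM⟩
  · have := hM w
    rwa [hw, mul_one] at this
  · apply crit X hs
    intro u
    have hq : ∀ u, inner ℝ (X u) (X u) - ‖X v‖ ^ 2 * inner ℝ u u ≤ (0 : ℝ) := by
      intro u
      rw [real_inner_self_eq_norm_sq, real_inner_self_eq_norm_sq]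
      have h1 := hM u
      have h2 := pow_le_pow_left₀ (norm_nonneg (X u)) h1 2
      rw [mul_pow] at h2
      linarith
    have h0 : inner ℝ (X v) (X v) - ‖X v‖ ^ 2 * inner ℝ v v = (0 : ℝ) := by
      rw [real_inner_self_eq_norm_sq, real_inner_self_eq_norm_sq, hv]
      ring
    have h3 := quad_zero (-(inner ℝ (X u) (X u) - ‖X v‖ ^ 2 * inner ℝ u u))
      (-(inner ℝ (X v) (X u) - ‖X v‖ ^ 2 * inner ℝ v u)) (by
        intro s
        have h4 := expand X (‖X v‖ ^ 2) v u s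
        have h5 := hq (v + s • u)
        rw [h4, h0] at h5
        linarith)
    linarith
  · apply crit X hs
    intro u
    have hq : ∀ u, (0 : ℝ) ≤ inner ℝ (X u) (X u) - ‖X w‖ ^ 2 * inner ℝ u u := by
      intro u
      rw [real_inner_self_eq_norm_sq, real_inner_self_eq_norm_sq]
      have h1 := hm u
      have h2 := pow_le_pow_left₀ (mul_nonneg (norm_nonneg (X w)) (norm_nonneg u)) h1 2
      rw [mul_pow] at h2
      linarith
    have h0 : inner ℝ (X w) (X w) - ‖X w‖ ^ 2 * inner ℝ w w = (0 : ℝ) := by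
      rw [real_inner_self_eq_norm_sq, real_inner_self_eq_norm_sq, hw]
      ring
    exact quad_zero (inner ℝ (X u) (X u) - ‖X w‖ ^ 2 * inner ℝ u u) _ (by
        intro s
        have h4 := expand X (‖X w‖ ^ 2) w u s
        have h5 := hq (w + s • u)
        rw [h4, h0] at h5
        linarith)

end H72G
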