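import Pool.Agent.Lib.H72G.B2
import Pool.Agent.Lib.H72G.B3

/-! # H72G, chunk B4: the complex structure -/

set_option autoImplicit false

open scoped Quaternion

noncomputable section

namespace H72G

open H72R

/-- polarisation of the skew condition -/
private lemma skew2 {X : L} (hs : ∀ v, inner ℝ (X v) v = 0) (u u' : E) :
    inner ℝ (X u) u' = -inner ℝ u (X u') := by
  have h := hs (u + u')
  rw [map_add, inner_add_left, inner_add_right, inner_add_right, hs u, hs u',
    real_inner_comm u (X u')] at h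
  linarith

private lemma sq_of_norm {X : L} (hs : ∀ v, inner ℝ (X v) v = 0) {l : ℝ}
    (hn : ∀ u, ‖X u‖ = l * ‖u‖) (u : E) : X (X u) = -(l ^ 2) • u := by
  have hi : ∀ u u' : E, inner ℝ (X u) (X u') = l ^ 2 * inner ℝ u u' := by
    intro u u'
    have h1 := hn (u + u')
    have h2 : ‖X u + X u'‖ ^ 2 = l ^ 2 * ‖u + u'‖ ^ 2 := by
      rw [← map_add, h1]
      ring
    rw [norm_add_sq_real, norm_add_sq_real, hn u, hn u'] at h2
    linarith
  refine ext_inner_right ℝ fun u' => ?_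
  rw [skew2 hs, hi, inner_smul_left]
  simp

/-- (B4, M) PROOF. `l, m, v, w` from `eigen`. If `m = 0` then `X w = 0` (norm: `⟪X (X w), w⟫ = -‖X w‖ ^ 2 = 0`), `exp_ker`
and `hp` give `exp (t • X) = 1` for all `t ≥ 0`, `gen_zero` gives `X = 0`. So `0 < m ≤ l`. With `t = 2 π / l`: `exp_vec`
at `v` gives `exp (t • X) v = v`, so `exp (t • X) = 1` by `hp`, and `exp_vec` at `w`, inner product with `w`
(`⟪X w, w⟫ = 0`) gives `cos (2 π m / l) = 1`; `0 < m / l ≤ 1`, so `m = l` (`Real.cos_eq_one_iff`). Hence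
`‖X u‖ = l ‖u‖` for all `u`, `X * X = -(l ^ 2) • 1`: `⟪X (X u), u'⟫ = -⟪X u, X u'⟫ = -l ^ 2 ⟪u, u'⟫` by polarisation.
`J = l⁻¹ • X`, the formula is `exp_vec` for every vector; given `a` take `t = (a + 2 π N) / l ≥ 0`. -/
theorem complex_structure (X : L) (hX : X ≠ 0) (hs : ∀ v, inner ℝ (X v) v = 0)
    (hp : ∀ t : ℝ, 0 ≤ t → ∀ v : E, v ≠ 0 → NormedSpace.exp (t • X) v = v → NormedSpace.exp (t • X) = 1) :
    ∃ J : L, J * J = -1 ∧ (∀ v, ‖J v‖ = ‖v‖) ∧ ∀ a : ℝ, ∃ t : ℝ, 0 ≤ t ∧
      NormedSpace.exp (t • X) = Real.cos a • (1 : L) + Real.sin a • J := by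
  obtain ⟨l, m, v, w, hm0, hml, hv1, hw1, hv, hw, hlow, hup⟩ := eigen X hs
  have hvne : v ≠ 0 := fun h => by
    rw [h, norm_zero] at hv1
    exact zero_ne_one hv1
  have hwne : w ≠ 0 := fun h => by
    rw [h, norm_zero] at hw1
    exact zero_ne_one hw1
  have hmpos : 0 < m := by
    rcases hm0.lt_or_eq with h | h
    · exact h
    · exfalso
      apply hX
      apply gen_zero
      intro t ht
      apply hp t ht w hwne
      apply exp_ker
      have h1 := skew2 hs (X w) w
      rw [hw, ← h] at h1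
      have h2 : inner ℝ (X w) (X w) = 0 := by
        have h3 : (-((0 : ℝ) ^ 2) • w) = 0 := by simp
        rw [h3, inner_zero_left] at h1
        linarith
      exact inner_self_eq_zero.1 h2
  have hlpos : 0 < l := lt_of_lt_of_le hmpos hml
  have ht0 : (0 : ℝ) ≤ 2 * Real.pi / l := by positivity
  have hlt : l * (2 * Real.pi / l) = 2 * Real.pi := by field_simp
  have hexp1 : NormedSpace.exp ((2 * Real.pi / l) • X) = 1 := by
    apply hp _ ht0 v hvne
    rw [exp_vec X hlpos hv, hlt, Real.cos_two_pi, Real.sin_two_pi]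
    simp
  have hcos : Real.cos (m * (2 * Real.pi / l)) = 1 := by
    have h1 := exp_vec X hmpos hw (2 * Real.pi / l)
    rw [hexp1] at h1
    have h2 : inner ℝ w w = inner ℝ (Real.cos (m * (2 * Real.pi / l)) • w +
        (Real.sin (m * (2 * Real.pi / l)) / m) • X w) w := by
      rw [← h1]
      rfl
    rw [inner_add_left, inner_smul_left, inner_smul_left, hs w, real_inner_self_eq_norm_sq, hw1] at h2
    simp at h2
    linarith
  have hlm : m = l := by
    obtain ⟨n, hn⟩ := (Real.cos_eq_one_iff _).1 hcos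
    have hpi := Real.pi_pos
    have h1 : (n : ℝ) * l = m := by
      have h2 : (n : ℝ) * (2 * Real.pi) * l = m * (2 * Real.pi) := by
        rw [hn]
        field_simp
      have h3 : (2 * Real.pi) * ((n : ℝ) * l - m) = 0 := by linarith
      rcases mul_eq_zero.1 h3 with h4 | h4
      · exfalso
        linarith
      · linarith
    have h2 : (0 : ℝ) < n := by
      by_contra hcon
      push Not at hcon
      have := mul_nonpos_of_nonpos_of_nonneg hcon hlpos.le
      linarith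
    have h3 : (n : ℝ) ≤ 1 := by
      by_contra hcon
      push Not at hcon
      have := mul_lt_mul_of_pos_right hcon hlpos
      linarith
    have h4 : (0 : ℤ) < n := by exact_mod_cast h2
    have h5 : n ≤ (1 : ℤ) := by exact_mod_cast h3
    have h6 : n = 1 := by omega
    rw [h6] at h1
    simpa using h1.symm
  have hn : ∀ u, ‖X u‖ = l * ‖u‖ := by
    intro u
    apply le_antisymm (hup u)
    have := hlow u
    rwa [hlm] at this
  have hXX := sq_of_norm hs hn
  refine ⟨l⁻¹ • X, ?_, ?_, ?_⟩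
  · ext1 u
    show l⁻¹ • X (l⁻¹ • X u) = -u
    rw [map_smul, hXX, smul_smul, smul_smul]
    have : l⁻¹ * l⁻¹ * -(l ^ 2) = -1 := by field_simp
    rw [this, neg_one_smul]
  · intro u
    show ‖l⁻¹ • X u‖ = ‖u‖
    rw [norm_smul, hn, Real.norm_eq_abs, abs_of_pos (inv_pos.2 hlpos)]
    field_simp
  · intro a
    have hN : |a| ≤ (⌈|a|⌉₊ : ℝ) := Nat.le_ceil _
    have hpi : (3 : ℝ) < Real.pi := Real.pi_gt_three
    have hpos : 0 ≤ a + (⌈|a|⌉₊ : ℝ) * (2 * Real.pi) := by
      have h1 : (⌈|a|⌉₊ : ℝ) ≤ (⌈|a|⌉₊ : ℝ) * (2 * Real.pi) := by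
        have h0 : (0 : ℝ) ≤ (⌈|a|⌉₊ : ℝ) := Nat.cast_nonneg _
        nlinarith
      have h2 := neg_abs_le a
      linarith
    refine ⟨(a + (⌈|a|⌉₊ : ℝ) * (2 * Real.pi)) / l, div_nonneg hpos hlpos.le, ?_⟩
    ext1 u
    rw [exp_vec X hlpos (hXX u)]
    have e : l * ((a + (⌈|a|⌉₊ : ℝ) * (2 * Real.pi)) / l) = a + (⌈|a|⌉₊ : ℝ) * (2 * Real.pi) := by
      field_simp
    rw [e, Real.cos_add_nat_mul_two_pi, Real.sin_add_nat_mul_two_pi]
    show _ = Real.cos a • u + Real.sin a • (l⁻¹ • X u)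
    rw [smul_smul, div_eq_mul_inv]

end H72G
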