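import Pool.Agent.Lib.H72G.D

/-! # H72G, chunk C1: an isometry with the quaternions which carries `J` to the multiplication by `i` -/

set_option autoImplicit false

open scoped Quaternion

noncomputable section

namespace H72G

open H72R

private theorem inner_JJ {J : L} (hn : ∀ v, ‖J v‖ = ‖v‖) (u v : E) : inner ℝ (J u) (J v) = inner ℝ u v := by
  have h : ∀ w, ‖(J : E →ₗ[ℝ] E) w‖ = ‖w‖ := hn
  have := ((⟨(J : E →ₗ[ℝ] E), h⟩ : E →ₗᵢ[ℝ] E)).inner_map_map u v
  exact this

private theorem inner_J {J : L} (hJ : J * J = -1) (hn : ∀ v, ‖J v‖ = ‖v‖) (u v : E) :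
    inner ℝ (J u) v = -inner ℝ u (J v) := by
  have h1 : J (J u) = -u := by
    have := congrArg (fun D : L => D u) hJ
    exact this
  have h2 := inner_JJ hn (J u) v
  rw [h1, inner_neg_left] at h2
  rw [← h2]

theorem exists_iso (J : L) (hJ : J * J = -1) (hn : ∀ v, ‖J v‖ = ‖v‖) :
    ∃ P : E ≃ₗᵢ[ℝ] ℍ[ℝ], ∀ v, P (J v) = qi * P v := by
  have hself : ∀ u, inner ℝ (J u) u = 0 := fun u => by
    have h1 := inner_J hJ hn u u
    rw [real_inner_comm (J u) u] at h1
    linarith [real_inner_comm (J u) u]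
  obtain ⟨e1, he1⟩ : ∃ e : E, ‖e‖ = 1 := ⟨EuclideanSpace.single 0 1, by simp⟩
  obtain ⟨e3, he3, h31, h32⟩ : ∃ e : E, ‖e‖ = 1 ∧ inner ℝ e1 e = 0 ∧ inner ℝ (J e1) e = 0 := by
    have hlt : Module.finrank ℝ (Submodule.span ℝ (Set.range ![e1, J e1])) < Module.finrank ℝ E := by
      refine lt_of_le_of_lt (finrank_range_le_card _) ?_
      simp
    have hne : (Submodule.span ℝ (Set.range ![e1, J e1]))ᗮ ≠ ⊥ := by
      intro h
      have := Submodule.orthogonal_eq_bot_iff.1 h
      rw [this, finrank_top] at hlt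
      exact lt_irrefl _ hlt
    obtain ⟨w, hw, hw0⟩ := Submodule.exists_mem_ne_zero_of_ne_bot hne
    have hwn : ‖w‖ ≠ 0 := norm_ne_zero_iff.2 hw0
    refine ⟨‖w‖⁻¹ • w, by rw [norm_smul, norm_inv, norm_norm, inv_mul_cancel₀ hwn], ?_, ?_⟩
    · rw [inner_smul_right, (Submodule.mem_orthogonal _ _).1 hw e1 (Submodule.subset_span ⟨0, rfl⟩), mul_zero]
    · rw [inner_smul_right, (Submodule.mem_orthogonal _ _).1 hw (J e1) (Submodule.subset_span ⟨1, rfl⟩), mul_zero]
  have h14 : inner ℝ e1 (J e3) = 0 := by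
    have := inner_J hJ hn e1 e3
    linarith
  have h24 : inner ℝ (J e1) (J e3) = 0 := by rw [inner_JJ hn, h31]
  have hself' : ∀ u, inner ℝ u (J u) = 0 := fun u => by rw [real_inner_comm, hself]
  have h13' : inner ℝ e3 e1 = 0 := by rw [real_inner_comm, h31]
  have h23' : inner ℝ e3 (J e1) = 0 := by rw [real_inner_comm, h32]
  have h14' : inner ℝ (J e3) e1 = 0 := by rw [real_inner_comm, h14]
  have h24' : inner ℝ (J e3) (J e1) = 0 := by rw [real_inner_comm, h24]
  have hon : Orthonormal ℝ ![e1, J e1, e3, J e3] := by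
    refine ⟨fun i => ?_, fun i j hij => ?_⟩
    · fin_cases i <;> simp [he1, he3, hn]
    · fin_cases i <;> fin_cases j <;>
        first
        | exact absurd rfl hij
        | simp [h31, h32, h14, h24, hself, hself', h13', h23', h14', h24']
  have hspan : ⊤ ≤ Submodule.span ℝ (Set.range ![e1, J e1, e3, J e3]) := by
    have := hon.linearIndependent.span_eq_top_of_card_eq_finrank (by simp)
    rw [this]
  set b : OrthonormalBasis (Fin 4) ℝ E := OrthonormalBasis.mk hon hspan with hb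
  have hb' : ∀ i, b i = (![e1, J e1, e3, J e3] : Fin 4 → E) i := fun i => by
    rw [hb, OrthonormalBasis.coe_mk]
  refine ⟨b.repr.trans Quaternion.linearIsometryEquivTuple.symm, fun v => ?_⟩
  have hr : ∀ (w : E) (i : Fin 4), (b.repr w) i = inner ℝ ((![e1, J e1, e3, J e3] : Fin 4 → E) i) w := fun w i => by
    rw [b.repr_apply_apply, hb']
  have g0 : ∀ w, (b.repr.trans Quaternion.linearIsometryEquivTuple.symm w).re = inner ℝ e1 w := fun w => hr w 0
  have g1 : ∀ w, (b.repr.trans Quaternion.linearIsometryEquivTuple.symm w).imI = inner ℝ (J e1) w := fun w => hr w 1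
  have g2 : ∀ w, (b.repr.trans Quaternion.linearIsometryEquivTuple.symm w).imJ = inner ℝ e3 w := fun w => hr w 2
  have g3 : ∀ w, (b.repr.trans Quaternion.linearIsometryEquivTuple.symm w).imK = inner ℝ (J e3) w := fun w => hr w 3
  have k1 : inner ℝ e1 (J v) = -inner ℝ (J e1) v := by rw [inner_J hJ hn, neg_neg]
  have k3 : inner ℝ e3 (J v) = -inner ℝ (J e3) v := by rw [inner_J hJ hn, neg_neg]
  have k2 : inner ℝ (J e1) (J v) = inner ℝ e1 v := inner_JJ hn _ _
  have k4 : inner ℝ (J e3) (J v) = inner ℝ e3 v := inner_JJ hn _ _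
  apply Quaternion.ext
  · rw [Quaternion.re_mul, g0, g1, g0, g2, g3, k1]; simp [qi]
  · rw [Quaternion.imI_mul, g1, g0, g1, g2, g3, k2]; simp [qi]
  · rw [Quaternion.imJ_mul, g2, g0, g1, g2, g3, k3]; simp [qi]
  · rw [Quaternion.imK_mul, g3, g0, g1, g2, g3, k4]; simp [qi]

end H72G
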