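import Pool.Agent.Lib.H72G.C1

/-! # H72G, chunk C2: the flow on the unit quaternions -/

set_option autoImplicit false

open scoped Quaternion

noncomputable section

namespace H72G

open H72R

/-- The homeomorphism of the spheres which belongs to a linear isometry. -/
private def sph (P : E ≃ₗᵢ[ℝ] ℍ[ℝ]) : S3 ≃ₜ S where
  toFun x := ⟨P x.1, by
    rw [mem_sphere_zero_iff_norm, P.norm_map]
    exact mem_sphere_zero_iff_norm.1 x.2⟩
  invFun y := ⟨P.symm y.1, by
    rw [mem_sphere_zero_iff_norm, P.symm.norm_map]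
    exact mem_sphere_zero_iff_norm.1 y.2⟩
  left_inv x := Subtype.ext (P.symm_apply_apply _)
  right_inv y := Subtype.ext (P.apply_symm_apply _)
  continuous_toFun := (P.continuous.comp continuous_subtype_val).subtype_mk _
  continuous_invFun := (P.symm.continuous.comp continuous_subtype_val).subtype_mk _

private theorem sph_coe (P : E ≃ₗᵢ[ℝ] ℍ[ℝ]) (x : S3) : (sph P x).1 = P x.1 := rfl

private theorem sph_symm_coe (P : E ≃ₗᵢ[ℝ] ℍ[ℝ]) (y : S) : ((sph P).symm y).1 = P.symm y.1 := rfl

/-- The flow `ψ t y = T (φ t (T⁻¹ y))`. -/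
private def cflow (T : S3 ≃ₜ S) (φ : Flow ℝ S3) : Flow ℝ S where
  toFun t y := T (φ t (T.symm y))
  cont' := T.continuous.comp
    (φ.continuous continuous_fst (T.symm.continuous.comp continuous_snd))
  map_add' t₁ t₂ y := by
    rw [Homeomorph.symm_apply_apply, Flow.map_add]
  map_zero' y := by
    rw [Flow.map_zero_apply, Homeomorph.apply_symm_apply]

private theorem cflow_apply (T : S3 ≃ₜ S) (φ : Flow ℝ S3) (t : ℝ) (y : S) :
    cflow T φ t y = T (φ t (T.symm y)) := rfl

private theorem ce_eq (a : ℝ) (q : ℍ[ℝ]) : Real.cos a • q + Real.sin a • (qi * q) = ce a * q := by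
  have h : ce a = Real.cos a • (1 : ℍ[ℝ]) + Real.sin a • qi := by
    ext <;> simp
  rw [h, add_mul, smul_mul_assoc, smul_mul_assoc, one_mul]

/-- (C2, M) PROOF. `P` from `exists_iso`, it restricts to a homeomorphism `p : S3 ≃ₜ S` (both directions
`Subtype.mk`, continuous). `ψ t x = p (φ t (p⁻¹ x))` is a flow (`Flow` structure: `toFun`, `cont'`, `map_add'`,
`map_zero'`; compare `Lib/H72R/J.lean` or the use of `flow_S` in `Lib/H72V/R6.lean`). `CeCom`: if `y = ce a * x` then
`p⁻¹ y = (cos a • 1 + sin a • J) (p⁻¹ x)` (`ce a = cos a + sin a * qi`, `P (J v) = qi * P v`), use `hc a`. Minimality: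
the preimage of an invariant closed set is an invariant closed set. -/
theorem exists_quat_flow {φ : Flow ℝ S3} (hm : MinimalFlow φ) (J : L) (hJ : J * J = -1) (hn : ∀ v, ‖J v‖ = ‖v‖)
    (hc : ∀ a : ℝ, Com φ (Real.cos a • (1 : L) + Real.sin a • J)) :
    ∃ ψ : Flow ℝ S, CeCom ψ ∧
      ∀ s : Set S, IsClosed s → s.Nonempty → (∀ (t : ℝ), ∀ x ∈ s, ψ t x ∈ s) → s = Set.univ := by
  obtain ⟨P, hP⟩ := exists_iso J hJ hn
  have hA : ∀ (a : ℝ) (v : E), P ((Real.cos a • (1 : L) + Real.sin a • J) v) = ce a * P v := by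
    intro a v
    rw [← ce_eq, ← hP v, ← map_smul, ← map_smul, ← map_add]
    rfl
  refine ⟨cflow (sph P) φ, ?_, ?_⟩
  · intro a t x y hxy
    rw [cflow_apply, cflow_apply, sph_coe, sph_coe, ← hA]
    congr 1
    refine (hc a).2 t _ _ ?_
    rw [sph_symm_coe, sph_symm_coe]
    apply P.injective
    rw [P.apply_symm_apply, hA, P.apply_symm_apply, hxy]
  · intro s hs hne hinv
    have h := hm (sph P ⁻¹' s) (hs.preimage (sph P).continuous) ?_ ?_
    · rw [Set.eq_univ_iff_forall] at h ⊢
      intro y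
      have h1 := h ((sph P).symm y)
      rwa [Set.mem_preimage, Homeomorph.apply_symm_apply] at h1
    · obtain ⟨y, hy⟩ := hne
      exact ⟨(sph P).symm y, by rwa [Set.mem_preimage, Homeomorph.apply_symm_apply]⟩
    · intro t x hx
      have h1 := hinv t _ hx
      rw [cflow_apply, Homeomorph.symm_apply_apply] at h1
      exact h1

end H72G
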