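import Pool.Agent.Lib.H72G.D

/-! # H72G, chunk C3: a map commuting with the circle moves some point inside its circle -/

set_option autoImplicit false

open scoped Quaternion

noncomputable section

namespace H72G

open H72R

private theorem normSq_eq (q : ℍ[ℝ]) :
    ‖q‖ ^ 2 = q.re ^ 2 + q.imI ^ 2 + q.imJ ^ 2 + q.imK ^ 2 := by
  rw [sq, ← Quaternion.normSq_eq_norm_mul_self, Quaternion.normSq_def']

private theorem norm_coe (x : S) : ‖x.1‖ = 1 := mem_sphere_zero_iff_norm.1 x.2

private theorem star_mul_self_coe (x : S) : star x.1 * x.1 = 1 := by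
  rw [Quaternion.star_mul_self, Quaternion.normSq_eq_norm_mul_self, norm_coe]
  simp

/-- The point of the sphere with the coordinates `cos s cos θ`, `cos s sin θ`, `sin s`, `0`. -/
private def Hp (z : ℝ × ℝ) : ℍ[ℝ] :=
  ⟨Real.cos z.1 * Real.cos z.2, Real.cos z.1 * Real.sin z.2, Real.sin z.1, 0⟩

private theorem Hp_mem (z : ℝ × ℝ) : Hp z ∈ Metric.sphere (0 : ℍ[ℝ]) 1 := by
  rw [mem_sphere_zero_iff_norm]
  have h := normSq_eq (Hp z)
  have h1 := Real.cos_sq_add_sin_sq z.1
  have h2 := Real.cos_sq_add_sin_sq z.2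
  have h3 : ‖Hp z‖ ^ 2 = 1 := by
    rw [h]
    simp only [Hp]
    have : (Real.cos z.1 * Real.cos z.2) ^ 2 + (Real.cos z.1 * Real.sin z.2) ^ 2 +
        Real.sin z.1 ^ 2 + (0 : ℝ) ^ 2 = Real.cos z.1 ^ 2 * (Real.cos z.2 ^ 2 + Real.sin z.2 ^ 2) +
        Real.sin z.1 ^ 2 := by ring
    rw [this, h2, mul_one, h1]
  have h0 := norm_nonneg (Hp z)
  nlinarith

private def Hs (z : ℝ × ℝ) : S := ⟨Hp z, Hp_mem z⟩

private theorem Hp_eq (z : ℝ × ℝ) : Hp z = (Real.cos z.1) • ce z.2 + (Real.sin z.1) • qj := by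
  ext <;> simp [Hp]

private theorem ce_eq (t : ℝ) : ce t = (Real.cos t) • (1 : ℍ[ℝ]) + (Real.sin t) • qi := by
  ext <;> simp

private theorem Hs_cont : Continuous Hs := by
  refine Continuous.subtype_mk ?_ _
  have : Hp = fun z : ℝ × ℝ => (Real.cos z.1) • ((Real.cos z.2) • (1 : ℍ[ℝ]) +
      (Real.sin z.2) • qi) + (Real.sin z.1) • qj := by
    funext z
    rw [Hp_eq, ce_eq]
  rw [this]
  fun_prop

/-- (C3, M) PROOF. Suppose not. `w x = F x * star x` (a unit quaternion); put `b x = ⟨(w x).imJ, (w x).imK⟩` as a complex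
number. `b x ≠ 0`: otherwise `w x = ce a` for some `a` (`re ^ 2 + imI ^ 2 = 1`) and `F x = ce a * x`. From `hF`:
`w (ce a * x) = ce a * w x * star (ce a)`, so `b (ce a * x) = e ^ (2 i a) b x` (multiply out the coordinates of
`ce a * w * star (ce a)`, `ce a = ⟨cos a, sin a, 0, 0⟩`). Let `c = b / |b|` (real coordinates `c₁, c₂`,
`c₁ ^ 2 + c₂ ^ 2 = 1`). The map `H (s, θ) = cos s • ce θ + sin s • qj` from `ℝ × ℝ` to `S` is continuous; by
`H72R.circle_lift` (`X = ℝ × ℝ`) there is a continuous `α` with `c₁ (H z) = cos (α z)`, `c₂ (H z) = sin (α z)`.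
`α (s, θ + 2 π) - α (s, θ)` has cosine 1 and is continuous, so it is a constant `K` (`H72R.const_of_cos`).
At `s = π / 2` the map `H` is constant, so `α (π/2, ·)` is constant (`H72R.const_of_cos_sin`) and `K = 0`. At `s = 0`:
`H (0, θ) = ce θ`, `c (ce θ) = e ^ (2 i θ) c (1)`, so `α (0, θ) - 2 θ` has constant sine and cosine, is constant, and
`K = 4 π`. Contradiction. -/
theorem meets (F : S → S) (hFc : Continuous F)
    (hF : ∀ (a : ℝ) (x y : S), y.1 = ce a * x.1 → (F y).1 = ce a * (F x).1) :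
    ∃ (x : S) (a : ℝ), (F x).1 = ce a * x.1 := by
  by_contra hcon
  push Not at hcon
  set w : S → ℍ[ℝ] := fun x => (F x).1 * star x.1 with hw
  have hwc : Continuous w := by
    simp only [hw]
    exact (continuous_subtype_val.comp hFc).mul (continuous_star.comp continuous_subtype_val)
  have hwn : ∀ x, (w x).re ^ 2 + (w x).imI ^ 2 + (w x).imJ ^ 2 + (w x).imK ^ 2 = 1 := by
    intro x
    rw [← normSq_eq]
    simp only [hw]
    rw [norm_mul, norm_star, norm_coe, norm_coe]
    norm_num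
  have hwF : ∀ x, w x * x.1 = (F x).1 := by
    intro x
    simp only [hw]
    rw [mul_assoc, star_mul_self_coe, mul_one]
  have hpos : ∀ x, 0 < (w x).imJ ^ 2 + (w x).imK ^ 2 := by
    intro x
    by_contra hx
    have h1 : (w x).imJ ^ 2 + (w x).imK ^ 2 = 0 := le_antisymm (not_lt.1 hx) (by positivity)
    have h2 : (w x).imJ = 0 := by nlinarith [sq_nonneg (w x).imJ, sq_nonneg (w x).imK]
    have h3 : (w x).imK = 0 := by nlinarith [sq_nonneg (w x).imJ, sq_nonneg (w x).imK]
    have h4 : (w x).re ^ 2 + (w x).imI ^ 2 = 1 := by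
      have := hwn x
      rw [h2, h3] at this
      linarith
    set z : ℂ := ⟨(w x).re, (w x).imI⟩ with hz
    have h5 : ‖z‖ ^ 2 = 1 := by
      rw [Complex.sq_norm, hz, Complex.normSq_mk]
      nlinarith
    have h6 : ‖z‖ = 1 := by
      have := norm_nonneg z
      nlinarith
    have h7 : z ≠ 0 := by
      intro h
      rw [h, norm_zero] at h6
      exact zero_ne_one h6
    refine hcon x (Complex.arg z) ?_
    rw [← hwF x]
    congr 1
    ext
    · rw [ce_re, Complex.cos_arg h7, h6, div_one]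
    · rw [ce_i, Complex.sin_arg, h6, div_one]
    · rw [ce_j, h2]
    · rw [ce_k, h3]
  set r : S → ℝ := fun x => Real.sqrt ((w x).imJ ^ 2 + (w x).imK ^ 2) with hr
  have hr0 : ∀ x, 0 < r x := fun x => Real.sqrt_pos.2 (hpos x)
  have hrs : ∀ x, r x ^ 2 = (w x).imJ ^ 2 + (w x).imK ^ 2 := fun x => Real.sq_sqrt (hpos x).le
  have hJ : Continuous fun x => (w x).imJ := Quaternion.continuous_imJ.comp hwc
  have hK : Continuous fun x => (w x).imK := Quaternion.continuous_imK.comp hwc
  have hrc : Continuous r := by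
    simp only [hr]
    exact Real.continuous_sqrt.comp ((hJ.pow 2).add (hK.pow 2))
  set c1 : S → ℝ := fun x => (w x).imJ / r x with hc1
  set c2 : S → ℝ := fun x => (w x).imK / r x with hc2
  have hc1c : Continuous c1 := hJ.div hrc fun x => (hr0 x).ne'
  have hc2c : Continuous c2 := hK.div hrc fun x => (hr0 x).ne'
  have hc12 : ∀ x, c1 x ^ 2 + c2 x ^ 2 = 1 := by
    intro x
    simp only [hc1, hc2]
    rw [div_pow, div_pow, ← add_div, ← hrs x]
    exact div_self (pow_ne_zero 2 (hr0 x).ne')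
  -- equivariance
  have hrot : ∀ (a : ℝ) (x y : S), y.1 = ce a * x.1 →
      c1 y = Real.cos (2 * a) * c1 x - Real.sin (2 * a) * c2 x ∧
      c2 y = Real.sin (2 * a) * c1 x + Real.cos (2 * a) * c2 x := by
    intro a x y hxy
    have h1 : w y = ce a * w x * star (ce a) := by
      simp only [hw]
      rw [hF a x y hxy, hxy, star_mul]
      simp only [mul_assoc]
    have h2 : (w y).imJ = Real.cos (2 * a) * (w x).imJ - Real.sin (2 * a) * (w x).imK := by
      rw [h1, Real.cos_two_mul, Real.sin_two_mul]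
      have := Real.sin_sq_add_cos_sq a
      simp only [Quaternion.imJ_mul, Quaternion.re_mul, Quaternion.imI_mul, Quaternion.imK_mul,
        Quaternion.re_star, Quaternion.imI_star, Quaternion.imJ_star, Quaternion.imK_star,
        ce_re, ce_i, ce_j, ce_k]
      linear_combination (-(w x).imJ) * this
    have h3 : (w y).imK = Real.sin (2 * a) * (w x).imJ + Real.cos (2 * a) * (w x).imK := by
      rw [h1, Real.cos_two_mul, Real.sin_two_mul]
      have := Real.sin_sq_add_cos_sq a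
      simp only [Quaternion.imJ_mul, Quaternion.re_mul, Quaternion.imI_mul, Quaternion.imK_mul,
        Quaternion.re_star, Quaternion.imI_star, Quaternion.imJ_star, Quaternion.imK_star,
        ce_re, ce_i, ce_j, ce_k]
      linear_combination (-(w x).imK) * this
    have h4 : r y = r x := by
      have h5 : r y ^ 2 = r x ^ 2 := by
        rw [hrs, hrs, h2, h3]
        have := Real.sin_sq_add_cos_sq (2 * a)
        linear_combination ((w x).imJ ^ 2 + (w x).imK ^ 2) * this
      exact (pow_left_inj₀ (hr0 y).le (hr0 x).le two_ne_zero).1 h5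
    constructor
    · simp only [hc1, hc2]
      rw [h2, h4]
      ring
    · simp only [hc1, hc2]
      rw [h3, h4]
      ring
  obtain ⟨α, hαc, hα⟩ := circle_lift (X := ℝ × ℝ) (fun z => c1 (Hs z)) (fun z => c2 (Hs z))
    (hc1c.comp Hs_cont) (hc2c.comp Hs_cont) (fun z => hc12 (Hs z))
  -- the period
  have hper : ∀ s θ : ℝ, Hs (s, θ + 2 * Real.pi) = Hs (s, θ) := by
    intro s θ
    apply Subtype.ext
    simp only [Hs, Hp, Real.cos_add_two_pi, Real.sin_add_two_pi]
  have hKc : ∀ z z' : ℝ × ℝ, α (z.1, z.2 + 2 * Real.pi) - α z = α (z'.1, z'.2 + 2 * Real.pi) - α z' := by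
    refine const_of_cos (fun z : ℝ × ℝ => α (z.1, z.2 + 2 * Real.pi) - α z) ?_ 1 (by norm_num) ?_
    · exact (hαc.comp (by fun_prop)).sub hαc
    · intro z
      have h1 := hα (z.1, z.2 + 2 * Real.pi)
      have h2 := hα z
      have h3 : Hs (z.1, z.2 + 2 * Real.pi) = Hs z := hper z.1 z.2
      rw [h3] at h1
      rw [Real.cos_sub, ← h1.1, ← h1.2, ← h2.1, ← h2.2]
      have := hc12 (Hs z)
      linear_combination this
  have hpole : ∀ θ θ' : ℝ, α (Real.pi / 2, θ) = α (Real.pi / 2, θ') := by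
    have hcst : ∀ θ θ' : ℝ, Hs (Real.pi / 2, θ) = Hs (Real.pi / 2, θ') := by
      intro θ θ'
      apply Subtype.ext
      simp only [Hs, Hp, Real.cos_pi_div_two, zero_mul]
    refine const_of_cos_sin (fun θ : ℝ => α (Real.pi / 2, θ)) (hαc.comp (by fun_prop)) ?_ ?_
    · intro θ θ'
      rw [← (hα (Real.pi / 2, θ)).1, ← (hα (Real.pi / 2, θ')).1, hcst θ θ']
    · intro θ θ'
      rw [← (hα (Real.pi / 2, θ)).2, ← (hα (Real.pi / 2, θ')).2, hcst θ θ']
  have hzero : ∀ θ : ℝ, Real.cos (α (0, θ) - 2 * θ) = Real.cos (α (0, 0)) ∧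
      Real.sin (α (0, θ) - 2 * θ) = Real.sin (α (0, 0)) := by
    intro θ
    have h1 : (Hs (0, θ)).1 = ce θ * (Hs (0, 0)).1 := by
      ext <;> simp [Hs, Hp]
    obtain ⟨h2, h3⟩ := hrot θ (Hs (0, 0)) (Hs (0, θ)) h1
    obtain ⟨h4, h5⟩ := hα (0, θ)
    obtain ⟨h6, h7⟩ := hα (0, 0)
    have h8 := Real.sin_sq_add_cos_sq (2 * θ)
    rw [Real.cos_sub, Real.sin_sub, ← h4, ← h5, ← h6, ← h7]
    constructor
    · rw [h2, h3]
      linear_combination (c1 (Hs (0, 0))) * h8
    · rw [h2, h3]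
      linear_combination (c2 (Hs (0, 0))) * h8
  have hlin : ∀ θ θ' : ℝ, α (0, θ) - 2 * θ = α (0, θ') - 2 * θ' := by
    refine const_of_cos_sin (fun θ : ℝ => α (0, θ) - 2 * θ) ((hαc.comp (by fun_prop)).sub
      (by fun_prop)) ?_ ?_
    · intro θ θ'
      rw [(hzero θ).1, (hzero θ').1]
    · intro θ θ'
      rw [(hzero θ).2, (hzero θ').2]
  have e1 := hKc (0, 0) (Real.pi / 2, 0)
  have e2 := hpole (0 + 2 * Real.pi) 0
  have e3 := hlin (0 + 2 * Real.pi) 0
  have e4 := Real.pi_pos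
  simp only at e1
  linarith

end H72G
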