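import Pool.Agent.Lib.H72G.C3

/-! # H72G, chunk C4: an invariant circle -/

set_option autoImplicit false

open scoped Quaternion

noncomputable section

namespace H72G

open H72R

private theorem c4_norm (x : S) : ‖x.1‖ = 1 := mem_sphere_zero_iff_norm.1 x.2

private theorem c4_ce_zero : ce 0 = 1 := by
  ext <;> simp

private def c4Rel (y x : S) : Prop := (y.1 * star x.1).imJ = 0 ∧ (y.1 * star x.1).imK = 0

private theorem c4_rel_iff (y x : S) : c4Rel y x ↔ ∃ a : ℝ, y.1 = ce a * x.1 := by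
  constructor
  · rintro ⟨h1, h2⟩
    have h3 : ‖y.1 * star x.1‖ = 1 := by
      rw [norm_mul, norm_star, c4_norm, c4_norm, one_mul]
    have h4 : Quaternion.normSq (y.1 * star x.1) = 1 := by
      rw [Quaternion.normSq_eq_norm_mul_self, h3, one_mul]
    rw [Quaternion.normSq_def', h1, h2] at h4
    have h5 : (⟨(y.1 * star x.1).re, (y.1 * star x.1).imI⟩ : ℂ) ≠ 0 := by
      intro h
      have h6 := congrArg Complex.re h
      have h7 := congrArg Complex.im h
      simp only [Complex.zero_re, Complex.zero_im] at h6 h7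
      rw [h6, h7] at h4
      norm_num at h4
    have h6 : ‖(⟨(y.1 * star x.1).re, (y.1 * star x.1).imI⟩ : ℂ)‖ = 1 := by
      have h7 : ‖(⟨(y.1 * star x.1).re, (y.1 * star x.1).imI⟩ : ℂ)‖ ^ 2 = 1 := by
        rw [Complex.sq_norm, Complex.normSq_mk]
        nlinarith [h4]
      have h8 := norm_nonneg (⟨(y.1 * star x.1).re, (y.1 * star x.1).imI⟩ : ℂ)
      nlinarith
    refine ⟨Complex.arg ⟨(y.1 * star x.1).re, (y.1 * star x.1).imI⟩, ?_⟩
    have h7 : y.1 * star x.1 = ce (Complex.arg ⟨(y.1 * star x.1).re, (y.1 * star x.1).imI⟩) := by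
      ext
      · rw [ce_re, Complex.cos_arg h5, h6, div_one]
      · rw [ce_i, Complex.sin_arg, h6, div_one]
      · rw [ce_j, h1]
      · rw [ce_k, h2]
    rw [← h7, mul_assoc, star_mul_one (c4_norm x), mul_one]
  · rintro ⟨a, h⟩
    have h1 : y.1 * star x.1 = ce a := by
      rw [h, mul_assoc, mul_star_one (c4_norm x), mul_one]
    unfold c4Rel
    rw [h1]
    exact ⟨rfl, rfl⟩

private theorem c4_closed {X : Type*} {l : Filter X} [l.NeBot] {f g : X → S} {y x : S}
    (hf : Filter.Tendsto f l (nhds y)) (hg : Filter.Tendsto g l (nhds x)) (h : ∀ n, c4Rel (f n) (g n)) :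
    c4Rel y x := by
  have h1 : Filter.Tendsto (fun n => (f n).1 * star (g n).1) l (nhds (y.1 * star x.1)) :=
    ((continuous_subtype_val.tendsto y).comp hf).mul
      ((continuous_star.tendsto x.1).comp ((continuous_subtype_val.tendsto x).comp hg))
  constructor
  · have h2 := (Quaternion.continuous_imJ.tendsto _).comp h1
    have h3 : (fun n => ((f n).1 * star (g n).1).imJ) = fun _ => (0 : ℝ) := by
      funext n
      exact (h n).1
    exact tendsto_nhds_unique h2 (by
      change Filter.Tendsto (fun n => ((f n).1 * star (g n).1).imJ) l (nhds 0)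
      rw [h3]
      exact tendsto_const_nhds)
  · have h2 := (Quaternion.continuous_imK.tendsto _).comp h1
    have h3 : (fun n => ((f n).1 * star (g n).1).imK) = fun _ => (0 : ℝ) := by
      funext n
      exact (h n).2
    exact tendsto_nhds_unique h2 (by
      change Filter.Tendsto (fun n => ((f n).1 * star (g n).1).imK) l (nhds 0)
      rw [h3]
      exact tendsto_const_nhds)

/-- (C4a, S) PROOF. Induction on `k`: `ψ (k T) x = ce (k a) * x` from `CeCom` and `ψ.map_add`,
`ce_mul : ce s * ce t = ce (s + t)`. -/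
theorem iterate_circle (ψ : Flow ℝ S) (hψ : CeCom ψ) {x : S} {T a : ℝ} (h : (ψ T x).1 = ce a * x.1) (k : ℕ) :
    ∃ a' : ℝ, (ψ (k * T) x).1 = ce a' * x.1 := by
  induction k with
  | zero =>
    refine ⟨0, ?_⟩
    rw [Nat.cast_zero, zero_mul, Flow.map_zero_apply, c4_ce_zero, one_mul]
  | succ k ih =>
    obtain ⟨a', h1⟩ := ih
    refine ⟨a + a', ?_⟩
    have h2 : ((k + 1 : ℕ) : ℝ) * T = k * T + T := by
      push_cast
      ring
    rw [h2, Flow.map_add, hψ a (k * T) x (ψ T x) h, h1, ← mul_assoc, ce_mul]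

/-- (C4b, M) PROOF. For `T = 2 ^ (-n)` let `x_n` be given by `meets` (for `F = ψ T`; `hψ` is the hypothesis). A
subsequence converges to `x` (`S` is compact). Let `t ≥ 0`, `k = ⌊t 2 ^ n⌋₊`: `ψ (k 2 ^ (-n)) x_n = ce a_n * x_n`
(`iterate_circle`), we may take `a_n ∈ [0, 2 π]` (or: the relation `∃ a, z = ce a * y` on unit quaternions is closed:
it says that `z * star y` has `imJ = imK = 0`), pass to the limit: `ψ t x = ce a * x`. For `t < 0` put
`y = ψ (-t) x = ce a * x`; then `x = ψ t y = ce a * ψ t x`, so `ψ t x = ce (-a) * x`. -/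
theorem exists_circle (ψ : Flow ℝ S) (hψ : CeCom ψ) : ∃ x : S, ∀ t : ℝ, ∃ a : ℝ, (ψ t x).1 = ce a * x.1 := by
  have h1 : ∀ n : ℕ, ∃ x : S, ∃ a : ℝ, (ψ ((1 / 2 : ℝ) ^ n) x).1 = ce a * x.1 := fun n =>
    meets (fun x => ψ ((1 / 2 : ℝ) ^ n) x) (ψ.continuous continuous_const continuous_id)
      fun a x y h => hψ a _ x y h
  choose u a hu using h1
  obtain ⟨x, φ, hφ, hx⟩ := CompactSpace.tendsto_subseq u
  have hpos : ∀ t : ℝ, 0 ≤ t → ∃ a : ℝ, (ψ t x).1 = ce a * x.1 := by
    intro t ht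
    rw [← c4_rel_iff]
    have h2 : Filter.Tendsto (fun n : ℕ => ((⌊t * 2 ^ n⌋₊ : ℕ) : ℝ) * (1 / 2 : ℝ) ^ n) Filter.atTop (nhds t) := by
      have h3 : Filter.Tendsto (fun n : ℕ => t - (1 / 2 : ℝ) ^ n) Filter.atTop (nhds t) := by
        have := (tendsto_const_nhds (x := t)).sub
          (tendsto_pow_atTop_nhds_zero_of_lt_one (by norm_num : (0 : ℝ) ≤ 1 / 2) (by norm_num))
        rw [sub_zero] at this
        exact this
      refine tendsto_of_tendsto_of_tendsto_of_le_of_le h3 tendsto_const_nhds (fun n => ?_) fun n => ?_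
      · have h4 : t * 2 ^ n < ((⌊t * 2 ^ n⌋₊ : ℕ) : ℝ) + 1 := Nat.lt_floor_add_one _
        have h5 : (0 : ℝ) < (1 / 2 : ℝ) ^ n := by positivity
        have h6 : (2 : ℝ) ^ n * (1 / 2 : ℝ) ^ n = 1 := by
          rw [← mul_pow]
          norm_num
        have h7 := mul_lt_mul_of_pos_right h4 h5
        rw [mul_assoc, h6, mul_one, add_mul, one_mul] at h7
        change t - (1 / 2 : ℝ) ^ n ≤ _
        linarith
      · have h4 : ((⌊t * 2 ^ n⌋₊ : ℕ) : ℝ) ≤ t * 2 ^ n := Nat.floor_le (by positivity)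
        have h5 : (0 : ℝ) < (1 / 2 : ℝ) ^ n := by positivity
        have h6 : (2 : ℝ) ^ n * (1 / 2 : ℝ) ^ n = 1 := by
          rw [← mul_pow]
          norm_num
        have h7 := mul_le_mul_of_nonneg_right h4 h5.le
        rw [mul_assoc, h6, mul_one] at h7
        exact h7
    have h3 : Filter.Tendsto (fun n : ℕ => ψ (((⌊t * 2 ^ (φ n)⌋₊ : ℕ) : ℝ) * (1 / 2 : ℝ) ^ (φ n)) (u (φ n)))
        Filter.atTop (nhds (ψ t x)) := by
      have h4 : Continuous fun p : ℝ × S => ψ p.1 p.2 := ψ.continuous continuous_fst continuous_snd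
      exact (h4.tendsto (t, x)).comp ((h2.comp hφ.tendsto_atTop).prodMk_nhds hx)
    exact c4_closed h3 hx fun n => (c4_rel_iff _ _).2 (iterate_circle ψ hψ (hu (φ n)) _)
  refine ⟨x, fun t => ?_⟩
  rcases le_total 0 t with ht | ht
  · exact hpos t ht
  · obtain ⟨b, hb⟩ := hpos (-t) (by linarith)
    refine ⟨-b, ?_⟩
    have h2 := hψ b t x (ψ (-t) x) hb
    rw [← Flow.map_add, add_neg_cancel, Flow.map_zero_apply] at h2
    rw [h2, ← mul_assoc, ce_mul, neg_add_cancel, c4_ce_zero, one_mul]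

/-- (C4c, S/M) PROOF. `x` from `exists_circle`; `s = {y : S | ∃ a, y.1 = ce a * x.1}` is closed (image of the compact
interval `[0, 2 π]` under a continuous map, or the closed condition `imJ = imK = 0` of `y * star x`), nonempty,
invariant (`CeCom` and `exists_circle`, `ce_mul`), and it is not `univ`: it does not contain `qj * x`. -/
theorem not_minimal (ψ : Flow ℝ S) (hψ : CeCom ψ)
    (hm : ∀ s : Set S, IsClosed s → s.Nonempty → (∀ (t : ℝ), ∀ x ∈ s, ψ t x ∈ s) → s = Set.univ) : False := by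
  obtain ⟨x, hx⟩ := exists_circle ψ hψ
  have h1 : IsClosed {y : S | c4Rel y x} := by
    have h2 : Continuous fun y : S => y.1 * star x.1 := continuous_subtype_val.mul continuous_const
    exact (isClosed_eq (Quaternion.continuous_imJ.comp h2) continuous_const).inter
      (isClosed_eq (Quaternion.continuous_imK.comp h2) continuous_const)
  have h2 : ({y : S | c4Rel y x}).Nonempty := ⟨x, (c4_rel_iff _ _).2 ⟨0, by rw [c4_ce_zero, one_mul]⟩⟩
  have h3 := hm _ h1 h2 (by
    intro t y hy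
    obtain ⟨a, ha⟩ := (c4_rel_iff _ _).1 hy
    obtain ⟨b, hb⟩ := hx t
    exact (c4_rel_iff _ _).2 ⟨a + b, by rw [hψ a t x y ha, hb, ← mul_assoc, ce_mul]⟩)
  have h4 : ‖qj * x.1‖ = 1 := by
    rw [norm_mul, c4_norm, mul_one]
    have h5 : ‖qj * qj‖ = 1 := by
      rw [qj_sq]
      simp
    rw [norm_mul] at h5
    nlinarith [norm_nonneg qj]
  have h5 : (⟨qj * x.1, mem_sphere_zero_iff_norm.2 h4⟩ : S) ∈ {y : S | c4Rel y x} := by
    rw [h3]
    trivial
  have h6 : (qj * x.1 * star x.1).imJ = 0 := h5.1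
  rw [mul_assoc, mul_star_one (c4_norm x), mul_one] at h6
  rw [qj_j] at h6
  exact one_ne_zero h6

end H72G
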