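import Pool.Agent.Lib.H72R.N

/-! # H72G: linear symmetries of a minimal flow on the 3-sphere, definitions -/

set_option autoImplicit false

open scoped Quaternion

noncomputable section

namespace H72G

open H72R

/-- Euclidean 4-space. -/
abbrev E : Type := EuclideanSpace ℝ (Fin 4)

/-- The linear maps of Euclidean 4-space. -/
abbrev L : Type := E →L[ℝ] E

/-- The unit quaternions. -/
abbrev S : Type := Metric.sphere (0 : ℍ[ℝ]) 1

/-- `A` preserves the norm and its restriction to the sphere commutes with the flow. -/
def Com (φ : Flow ℝ S3) (A : L) : Prop :=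
  (∀ v, ‖A v‖ = ‖v‖) ∧ ∀ (t : ℝ) (x y : S3), y.1 = A x.1 → (φ t y).1 = A (φ t x).1

/-- The flow on the unit quaternions commutes with the left multiplication by `ce a = cos a + i sin a`. -/
def CeCom (ψ : Flow ℝ S) : Prop :=
  ∀ (a t : ℝ) (x y : S), y.1 = ce a * x.1 → (ψ t y).1 = ce a * (ψ t x).1

end H72G
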