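import Pool.Agent.Lib.H72G.A2
import Pool.Agent.Lib.H72G.A3
import Pool.Agent.Lib.H72G.A4
import Pool.Agent.Lib.H72G.B1
import Pool.Agent.Lib.H72G.B4
import Pool.Agent.Lib.H72G.C2
import Pool.Agent.Lib.H72G.C4

/-! # H72G, chunk F1: finitely many linear symmetries -/

set_option autoImplicit false

open scoped Quaternion

noncomputable section

namespace H72G

open H72R Filter

/-- (F1) -/
theorem com_finite {φ : Flow ℝ S3} (hm : MinimalFlow φ) : {A : L | Com φ A}.Finite := by
  by_contra hinf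
  have hinf : {A : L | Com φ A}.Infinite := hinf
  choose B hB h1 hn using fun n : ℕ => exists_near hinf (1 / ((n : ℝ) + 1)) (by positivity)
  have hl : Tendsto (fun n => ‖B n - 1‖) atTop (nhds 0) := by
    refine squeeze_zero (fun n => norm_nonneg _) (fun n => (hn n).le) ?_
    exact tendsto_one_div_add_atTop_nhds_zero_nat
  obtain ⟨X, hX, σ, k, hk⟩ := limit B (fun n => (hB n).1) h1 hl
  have hcom : ∀ t : ℝ, 0 ≤ t → Com φ (NormedSpace.exp (t • X)) := fun t ht =>
    com_lim (fun n => com_pow (hB (σ n)) (k t n)) (hk t ht)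
  obtain ⟨J, hJ, hJn, hJt⟩ := complex_structure X (by rintro rfl; simp at hX)
    (skew X fun t ht v => (hcom t ht).1 v) (fun t ht v hv hv' => com_fixed hm (hcom t ht) hv hv')
  obtain ⟨ψ, hψ, hψm⟩ := exists_quat_flow hm J hJ hJn (fun a => by
    obtain ⟨t, ht, h⟩ := hJt a
    rw [← h]
    exact hcom t ht)
  exact not_minimal ψ hψ hψm

end H72G
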