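import Pool.Agent.Lib.H72G.F1

/-! # H72G, F2: reversing symmetries and conjugation by a homeomorphism -/

set_option autoImplicit false

open scoped Quaternion

noncomputable section

namespace H72G

open H72R Filter

/-- `A` preserves the norm and its restriction to the sphere reverses the time of the flow. -/
def Rev (φ : Flow ℝ S3) (A : L) : Prop :=
  (∀ v, ‖A v‖ = ‖v‖) ∧ ∀ (t : ℝ) (x y : S3), y.1 = A x.1 → (φ t y).1 = A (φ (-t) x).1

theorem norm_S3 (x : S3) : ‖x.1‖ = 1 := mem_sphere_zero_iff_norm.1 x.2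

theorem exists_pt {A : L} (hA : ∀ v, ‖A v‖ = ‖v‖) (x : S3) : ∃ y : S3, y.1 = A x.1 :=
  ⟨⟨A x.1, mem_sphere_zero_iff_norm.2 (by rw [hA, norm_S3])⟩, rfl⟩

theorem rev_mul {φ : Flow ℝ S3} {A B : L} (hA : Rev φ A) (hB : Rev φ B) : Com φ (A * B) := by
  refine ⟨fun v => ?_, fun t x y hy => ?_⟩
  · rw [mul_apply_eq_comp, hA.1, hB.1]
  · obtain ⟨z, hz⟩ := exists_pt hB.1 x
    have h1 := hB.2 (-t) x z hz
    rw [neg_neg] at h1
    have h2 := hA.2 t z y (by rw [hy, mul_apply_eq_comp, hz])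
    rw [h2, h1, mul_apply_eq_comp]

theorem rev_finite {φ : Flow ℝ S3} (hm : MinimalFlow φ) : {A : L | Rev φ A}.Finite := by
  rcases Set.eq_empty_or_nonempty {A : L | Rev φ A} with h | ⟨A₀, h₀⟩
  · rw [h]
    exact Set.finite_empty
  · have hinj : Function.Injective fun B : L => A₀ * B := by
      intro B C hBC
      ext1 v
      have h1 : A₀ (B v) = A₀ (C v) := by
        have := congrArg (fun D : L => D v) hBC
        simpa only [mul_apply_eq_comp] using this
      have h2 : ‖B v - C v‖ = 0 := by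
        rw [← h₀.1, map_sub, h1, sub_self, norm_zero]
      exact sub_eq_zero.1 (norm_eq_zero.1 h2)
    refine ((com_finite hm).preimage hinj.injOn).subset fun B hB => ?_
    exact rev_mul h₀ hB

/-- The conjugate flow. -/
def conj (φ : Flow ℝ S3) (h : S3 ≃ₜ S3) : Flow ℝ S3 where
  toFun t x := h.symm (φ t (h x))
  cont' := by
    have := φ.cont'
    exact h.symm.continuous.comp (this.comp (continuous_fst.prodMk (h.continuous.comp continuous_snd)))
  map_add' := fun s t x => by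
    rw [h.apply_symm_apply, φ.map_add]
  map_zero' := fun x => by
    rw [φ.map_zero_apply, h.symm_apply_apply]

theorem conj_apply (φ : Flow ℝ S3) (h : S3 ≃ₜ S3) (t : ℝ) (x : S3) : conj φ h t x = h.symm (φ t (h x)) := rfl

theorem conj_minimal {φ : Flow ℝ S3} (hm : MinimalFlow φ) (h : S3 ≃ₜ S3) : MinimalFlow (conj φ h) := by
  intro s hs hne hinv
  have h1 : h.symm ⁻¹' s = Set.univ := by
    refine hm _ (hs.preimage h.symm.continuous) ?_ ?_
    · obtain ⟨x, hx⟩ := hne
      exact ⟨h x, by rwa [Set.mem_preimage, h.symm_apply_apply]⟩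
    · intro t x hx
      have h2 := hinv t hx
      have h3 : (conj φ h).toFun t (h.symm x) = h.symm (φ t x) := by
        change h.symm (φ t (h (h.symm x))) = _
        rw [h.apply_symm_apply]
      rw [h3] at h2
      exact h2
  ext x
  simp only [Set.mem_univ, iff_true]
  have : h x ∈ h.symm ⁻¹' s := by
    rw [h1]
    trivial
  rwa [Set.mem_preimage, h.symm_apply_apply] at this

theorem clm_apply (A : Matrix (Fin 4) (Fin 4) ℝ) (x : E) (i : Fin 4) :
    (Matrix.toEuclideanCLM (𝕜 := ℝ) A x) i = ∑ j, A i j * x j := by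
  have h := Matrix.toEuclideanCLM_toLp (𝕜 := ℝ) A x.ofLp
  have h2 : (WithLp.toLp 2 x.ofLp : E) = x := rfl
  rw [h2] at h
  rw [h]
  rfl

theorem clm_norm {A : Matrix (Fin 4) (Fin 4) ℝ} (hA : A.transpose * A = 1) (v : E) :
    ‖Matrix.toEuclideanCLM (𝕜 := ℝ) A v‖ = ‖v‖ := by
  have h1 : star (Matrix.toEuclideanCLM (𝕜 := ℝ) A) * Matrix.toEuclideanCLM (𝕜 := ℝ) A = 1 := by
    rw [← map_star, ← map_mul, Matrix.star_eq_conjTranspose, Matrix.conjTranspose_eq_transpose_of_trivial, hA, map_one]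
  have h2 : ‖Matrix.toEuclideanCLM (𝕜 := ℝ) A v‖ ^ 2 = ‖v‖ ^ 2 := by
    rw [← real_inner_self_eq_norm_sq, ← real_inner_self_eq_norm_sq, ← ContinuousLinearMap.adjoint_inner_left]
    have h3 : (ContinuousLinearMap.adjoint (Matrix.toEuclideanCLM (𝕜 := ℝ) A)) (Matrix.toEuclideanCLM (𝕜 := ℝ) A v) = v := by
      have := congrArg (fun D : E →L[ℝ] E => D v) h1
      exact this
    rw [h3]
  exact (pow_left_inj₀ (norm_nonneg _) (norm_nonneg _) two_ne_zero).1 h2

theorem inj_of_norm {A : L} (hA : ∀ v, ‖A v‖ = ‖v‖) {B C : L} (h : A * B = A * C) : B = C := by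
  ext1 v
  have h1 : A (B v) = A (C v) := by
    have := congrArg (fun D : L => D v) h
    simpa only [mul_apply_eq_comp] using this
  have h2 : ‖B v - C v‖ = 0 := by
    rw [← hA, map_sub, h1, sub_self, norm_zero]
  exact sub_eq_zero.1 (norm_eq_zero.1 h2)

theorem com_order {φ : Flow ℝ S3} (hm : MinimalFlow φ) {A : L} (hA : Com φ A) : ∃ k > 0, A ^ k = 1 := by
  have hf := com_finite hm
  have : Finite {A : L | Com φ A} := hf
  obtain ⟨i, j, hij, he⟩ := Finite.exists_ne_map_eq_of_infinite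
    (fun n : ℕ => (⟨A ^ n, com_pow hA n⟩ : {A : L | Com φ A}))
  have he : A ^ i = A ^ j := congrArg Subtype.val he
  rcases lt_or_gt_of_ne hij with h | h
  · refine ⟨j - i, by omega, ?_⟩
    apply inj_of_norm (com_pow hA i).1
    rw [← pow_add, mul_one, show i + (j - i) = j by omega, he]
  · refine ⟨i - j, by omega, ?_⟩
    apply inj_of_norm (com_pow hA j).1
    rw [← pow_add, mul_one, show j + (i - j) = i by omega, he]

theorem rev_order {φ : Flow ℝ S3} (hm : MinimalFlow φ) {A : L} (hA : Rev φ A) : ∃ k > 0, A ^ k = 1 := by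
  obtain ⟨k, hk, h⟩ := com_order hm (rev_mul hA hA)
  refine ⟨2 * k, by omega, ?_⟩
  rw [pow_mul, pow_two, h]

/-- The orthogonal matrices `A` for which `h A h⁻¹` commutes with the flow or reverses its time. -/
def Symmetries (φ : Flow ℝ S3) (h : S3 ≃ₜ S3) : Set (Matrix (Fin 4) (Fin 4) ℝ) :=
  {A | A.transpose * A = 1 ∧ ∃ R : S3 → S3,
    (∀ x i, (h.symm (R (h x))).1 i = ∑ j, A i j * x.1 j) ∧ (Preserves φ R ∨ ReversesTime φ R)}

theorem sym_cases {φ : Flow ℝ S3} {h : S3 ≃ₜ S3} {A : Matrix (Fin 4) (Fin 4) ℝ} (H : A ∈ Symmetries φ h) :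
    Com (conj φ h) (Matrix.toEuclideanCLM (𝕜 := ℝ) A) ∨ Rev (conj φ h) (Matrix.toEuclideanCLM (𝕜 := ℝ) A) := by
  obtain ⟨hA, R, hR, hP⟩ := H
  have key : ∀ x y : S3, y.1 = Matrix.toEuclideanCLM (𝕜 := ℝ) A x.1 → h y = R (h x) := by
    intro x y hy
    have : y = h.symm (R (h x)) := by
      apply Subtype.ext
      rw [hy]
      ext i
      rw [clm_apply, hR]
    rw [this, h.apply_symm_apply]
  have key2 : ∀ x y : S3, h y = R (h x) → y.1 = Matrix.toEuclideanCLM (𝕜 := ℝ) A x.1 := by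
    intro x y hy
    have : y = h.symm (R (h x)) := by rw [← hy, h.symm_apply_apply]
    rw [this]
    ext i
    rw [clm_apply, hR]
  rcases hP with hP | hP
  · left
    refine ⟨clm_norm hA, fun t x y hy => ?_⟩
    apply key2
    rw [conj_apply, conj_apply, h.apply_symm_apply, h.apply_symm_apply, key x y hy, hP]
  · right
    refine ⟨clm_norm hA, fun t x y hy => ?_⟩
    apply key2
    rw [conj_apply, conj_apply, h.apply_symm_apply, h.apply_symm_apply, key x y hy, hP, neg_neg]

theorem main (φ : Flow ℝ S3) (hm : MinimalFlow φ) (h : S3 ≃ₜ S3) :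
    (Symmetries φ h).Finite ∧ ∀ A ∈ Symmetries φ h, ∃ k > 0, A ^ k = 1 := by
  have hinj : Function.Injective (Matrix.toEuclideanCLM (𝕜 := ℝ) (n := Fin 4)) := Matrix.toEuclideanCLM.injective
  have hm' := conj_minimal hm h
  refine ⟨(((com_finite hm').union (rev_finite hm')).preimage hinj.injOn).subset fun A hA => sym_cases hA,
    fun A hA => ?_⟩
  have : ∃ k > 0, (Matrix.toEuclideanCLM (𝕜 := ℝ) A) ^ k = 1 := by
    rcases sym_cases hA with h1 | h1
    · exact com_order hm' h1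
    · exact rev_order hm' h1
  obtain ⟨k, hk, he⟩ := this
  refine ⟨k, hk, hinj ?_⟩
  rw [map_pow, he, map_one]

end H72G
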