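import Pool.Agent.Lib.H72G.F2

/-! # H72G, F3: symmetries which rescale the time -/

set_option autoImplicit false

open scoped Quaternion

noncomputable section

namespace H72G

open H72R Filter

/-- `A` preserves the norm and its restriction to the sphere multiplies the time of the flow by `c`. -/
def Sc (φ : Flow ℝ S3) (c : ℝ) (A : L) : Prop :=
  (∀ v, ‖A v‖ = ‖v‖) ∧ ∀ (t : ℝ) (x y : S3), y.1 = A x.1 → (φ (c * t) y).1 = A (φ t x).1

theorem norm_pow_eq {A : L} (hA : ∀ v, ‖A v‖ = ‖v‖) (n : ℕ) : ∀ v, ‖(A ^ n) v‖ = ‖v‖ := by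
  induction n with
  | zero => intro v; rfl
  | succ n ih =>
    intro v
    rw [pow_succ, mul_apply_eq_comp, ih, hA]

theorem sc_pow {φ : Flow ℝ S3} {c : ℝ} {A : L} (hA : Sc φ c A) (n : ℕ) : Sc φ (c ^ n) (A ^ n) := by
  induction n with
  | zero =>
    refine ⟨fun v => rfl, fun t x y hy => ?_⟩
    have : y = x := Subtype.ext hy
    rw [this, pow_zero, one_mul]
    rfl
  | succ n ih =>
    refine ⟨norm_pow_eq hA.1 _, fun t x y hy => ?_⟩
    obtain ⟨z, hz⟩ := exists_pt hA.1 x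
    have h1 := ih.2 (c * t) z y (by rw [hy, pow_succ, mul_apply_eq_comp, hz])
    have h2 := hA.2 t x z hz
    rw [pow_succ c, mul_assoc, h1, h2, pow_succ, mul_apply_eq_comp]

/-- Powers of an isometry come back to the identity. -/
theorem recur {A : L} (hA : ∀ v, ‖A v‖ = ‖v‖) (ε : ℝ) (hε : 0 < ε) (N : ℕ) :
    ∃ n, N ≤ n ∧ ‖A ^ n - 1‖ ≤ ε := by
  have : ProperSpace L := FiniteDimensional.proper ℝ L
  have hb : ∀ j : ℕ, A ^ ((N + 1) * j) ∈ Metric.closedBall (0 : L) 1 := fun j => by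
    rw [mem_closedBall_zero_iff]
    exact ContinuousLinearMap.opNorm_le_bound _ zero_le_one (fun v => by rw [norm_pow_eq hA, one_mul])
  obtain ⟨X, -, σ, hσ, hlim⟩ := (isCompact_closedBall (0 : L) 1).tendsto_subseq hb
  have hc := hlim.cauchySeq
  rw [Metric.cauchySeq_iff'] at hc
  obtain ⟨M, hM⟩ := hc ε hε
  have h1 := hM (M + 1) (Nat.le_succ M)
  have h2 : σ M < σ (M + 1) := hσ (Nat.lt_succ_self M)
  refine ⟨(N + 1) * (σ (M + 1) - σ M), ?_, ?_⟩
  · have : 1 ≤ σ (M + 1) - σ M := by omega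
    nlinarith
  · refine ContinuousLinearMap.opNorm_le_bound _ hε.le (fun v => ?_)
    have h3 : (A ^ ((N + 1) * σ M)) ((A ^ ((N + 1) * (σ (M + 1) - σ M)) - 1) v) =
        (A ^ ((N + 1) * σ (M + 1)) - A ^ ((N + 1) * σ M)) v := by
      have h4 : A ^ ((N + 1) * σ (M + 1)) = A ^ ((N + 1) * σ M) * A ^ ((N + 1) * (σ (M + 1) - σ M)) := by
        rw [← pow_add, ← mul_add, Nat.add_sub_cancel' h2.le]
      rw [h4]
      simp only [sub_apply, mul_apply_eq_comp, map_sub]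
      rfl
    rw [← norm_pow_eq hA ((N + 1) * σ M), h3]
    refine (ContinuousLinearMap.le_opNorm _ _).trans ?_
    rw [← dist_eq_norm]
    exact mul_le_mul_of_nonneg_right h1.le (norm_nonneg _)

theorem not_all_rest {φ : Flow ℝ S3} (hm : MinimalFlow φ) (h : ∀ (t : ℝ) (x : S3), φ t x = x) : False := by
  have hx : (EuclideanSpace.single 0 1 : E) ∈ Metric.sphere (0 : E) 1 := by simp
  have hy : (EuclideanSpace.single 1 1 : E) ∈ Metric.sphere (0 : E) 1 := by simp
  have h1 := hm {⟨_, hx⟩} isClosed_singleton ⟨_, rfl⟩ (by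
    intro t x hx
    have h2 : φ.toFun t x = x := h t x
    rw [Set.mem_singleton_iff] at hx ⊢
    rw [h2, hx])
  have h2 : (⟨_, hy⟩ : S3) ∈ ({⟨_, hx⟩} : Set S3) := by
    rw [h1]
    trivial
  rw [Set.mem_singleton_iff] at h2
  have h3 := congrArg (fun z : S3 => z.1 0) h2
  simp at h3

theorem scale_lt {φ : Flow ℝ S3} (hm : MinimalFlow φ) {c : ℝ} (hc : |c| < 1)
    (H : ∀ N : ℕ, ∀ ε > 0, ∃ n ≥ N, ∃ B : L, ‖B - 1‖ ≤ ε ∧
      ((∀ v, ‖B v‖ = ‖v‖) ∧ (∀ (t : ℝ) (x y : S3), y.1 = B x.1 → (φ (c ^ n * t) y).1 = B (φ t x).1))) : False := by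
  choose n hn B hB1 hB2 using fun k : ℕ => H k (1 / ((k : ℝ) + 1)) (by positivity)
  have hB : Tendsto B atTop (nhds 1) := by
    rw [tendsto_iff_norm_sub_tendsto_zero]
    exact squeeze_zero (fun k => norm_nonneg _) hB1 tendsto_one_div_add_atTop_nhds_zero_nat
  have hv : ∀ v : E, Tendsto (fun k => B k v) atTop (nhds v) := fun v => by
    have h1 : Continuous fun D : L => D v := by fun_prop
    have := (h1.tendsto 1).comp hB
    exact this
  have hcn : Tendsto (fun k => c ^ n k) atTop (nhds 0) :=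
    (tendsto_pow_atTop_nhds_zero_of_abs_lt_one hc).comp (tendsto_atTop_mono hn tendsto_id)
  refine not_all_rest hm fun t x => ?_
  choose y hy using fun k => exists_pt (hB2 k).1 x
  have hyx : Tendsto y atTop (nhds x) := by
    rw [tendsto_subtype_rng]
    refine (hv x.1).congr fun k => (hy k).symm
  have h1 : Tendsto (fun k => φ (c ^ n k * t) (y k)) atTop (nhds (φ 0 x)) := by
    have h2 : Continuous fun p : ℝ × S3 => φ p.1 p.2 := φ.cont'
    have h3 : Tendsto (fun k => (c ^ n k * t, y k)) atTop (nhds ((0 : ℝ), x)) := by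
      have := (hcn.mul_const t).prodMk_nhds hyx
      rwa [zero_mul] at this
    exact (h2.tendsto ((0 : ℝ), x)).comp h3
  rw [φ.map_zero_apply] at h1
  have h4 : Tendsto (fun k => (φ (c ^ n k * t) (y k)).1) atTop (nhds (φ t x).1) :=
    (hv (φ t x).1).congr fun k => ((hB2 k).2 t x (y k) (hy k)).symm
  have h5 : Tendsto (fun k => (φ (c ^ n k * t) (y k)).1) atTop (nhds x.1) :=
    (continuous_subtype_val.tendsto x).comp h1
  exact Subtype.ext (tendsto_nhds_unique h4 h5)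

theorem scale_one {φ : Flow ℝ S3} (hm : MinimalFlow φ) {c : ℝ} {A : L} (hA : Sc φ c A) : c = 1 ∨ c = -1 := by
  rcases lt_trichotomy |c| 1 with h | h | h
  · exfalso
    refine scale_lt hm h fun N ε hε => ?_
    obtain ⟨n, hn, h1⟩ := recur hA.1 ε hε N
    exact ⟨n, hn, A ^ n, h1, (sc_pow hA n).1, (sc_pow hA n).2⟩
  · exact eq_or_eq_neg_of_abs_eq h
  · exfalso
    have hc0 : c ≠ 0 := by
      rintro rfl
      simp at h
      linarith
    have h' : |c⁻¹| < 1 := by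
      rw [abs_inv]
      exact inv_lt_one_of_one_lt₀ h
    refine scale_lt hm h' fun N ε hε => ?_
    obtain ⟨n, hn, h1⟩ := recur hA.1 ε hε N
    -- the inverse of `A ^ n`
    let e : E ≃ₗᵢ[ℝ] E := LinearIsometry.toLinearIsometryEquiv
      (⟨((A ^ n : L) : E →ₗ[ℝ] E), norm_pow_eq hA.1 n⟩ : E →ₗᵢ[ℝ] E) rfl
    have he : ∀ v, e v = (A ^ n) v := fun v => rfl
    refine ⟨n, hn, (e.symm : E →L[ℝ] E), ?_, fun v => e.symm.norm_map v, fun t x y hy => ?_⟩
    · refine ContinuousLinearMap.opNorm_le_bound _ hε.le (fun v => ?_)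
      have h2 : e (((e.symm : E →L[ℝ] E) - 1) v) = -((A ^ n - 1) v) := by
        have h3 : ((e.symm : E →L[ℝ] E) - 1) v = e.symm v - v := rfl
        have h4 : ((A ^ n - 1 : L)) v = (A ^ n) v - v := rfl
        rw [h3, map_sub, e.apply_symm_apply, h4, he, neg_sub]
      rw [← e.norm_map, h2, norm_neg]
      exact (ContinuousLinearMap.le_opNorm _ _).trans (mul_le_mul_of_nonneg_right h1 (norm_nonneg _))
    · have hxy : x.1 = (A ^ n) y.1 := by
        have h3 : y.1 = e.symm x.1 := hy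
        rw [h3, ← he, e.apply_symm_apply]
      have h5 := (sc_pow hA n).2 ((c⁻¹) ^ n * t) y x hxy
      have h6 : c ^ n * ((c⁻¹) ^ n * t) = t := by
        rw [← mul_assoc, ← mul_pow, mul_inv_cancel₀ hc0, one_pow, one_mul]
      rw [h6] at h5
      have h7 : ((e.symm : E →L[ℝ] E)) (φ t x).1 = e.symm (φ t x).1 := rfl
      rw [h7, h5, ← he, e.symm_apply_apply]

/-- `A` is orthogonal and `R = h A h⁻¹` multiplies the time of the flow by `c`. -/
def IsSymmetry (φ : Flow ℝ S3) (h : S3 ≃ₜ S3) (A : Matrix (Fin 4) (Fin 4) ℝ) (c : ℝ) : Prop :=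
  A.transpose * A = 1 ∧ ∃ R : S3 → S3, (∀ x i, (h.symm (R (h x))).1 i = ∑ j, A i j * x.1 j) ∧
    ∀ (x : S3) (t : ℝ), R (φ t x) = φ (c * t) (R x)

theorem sym_one {φ : Flow ℝ S3} (hm : MinimalFlow φ) {h : S3 ≃ₜ S3} {A : Matrix (Fin 4) (Fin 4) ℝ} {c : ℝ}
    (H : IsSymmetry φ h A c) : (c = 1 ∨ c = -1) ∧ A ∈ Symmetries φ h := by
  obtain ⟨hA, R, hR, hP⟩ := H
  have key : ∀ x y : S3, y.1 = Matrix.toEuclideanCLM (𝕜 := ℝ) A x.1 → h y = R (h x) := by
    intro x y hy
    have : y = h.symm (R (h x)) := by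
      apply Subtype.ext
      rw [hy]
      ext i
      rw [clm_apply, hR]
    rw [this, h.apply_symm_apply]
  have key2 : ∀ x y : S3, h y = R (h x) → y.1 = Matrix.toEuclideanCLM (𝕜 := ℝ) A x.1 := by
    intro x y hy
    have : y = h.symm (R (h x)) := by rw [← hy, h.symm_apply_apply]
    rw [this]
    ext i
    rw [clm_apply, hR]
  have hs : Sc (conj φ h) c (Matrix.toEuclideanCLM (𝕜 := ℝ) A) := by
    refine ⟨clm_norm hA, fun t x y hy => ?_⟩
    apply key2
    rw [conj_apply, conj_apply, h.apply_symm_apply, h.apply_symm_apply, key x y hy, hP]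
  have h1 := scale_one (conj_minimal hm h) hs
  refine ⟨h1, hA, R, hR, ?_⟩
  rcases h1 with rfl | rfl
  · left
    intro x t
    rw [hP, one_mul]
  · right
    intro x t
    rw [hP, neg_one_mul]

theorem main' (φ : Flow ℝ S3) (hm : MinimalFlow φ) (h : S3 ≃ₜ S3) :
    {A : Matrix (Fin 4) (Fin 4) ℝ | ∃ c, IsSymmetry φ h A c}.Finite ∧
      ∀ A c, IsSymmetry φ h A c → (c = 1 ∨ c = -1) ∧ ∃ k > 0, A ^ k = 1 :=
  ⟨(main φ hm h).1.subset fun _ ⟨_, hA⟩ => (sym_one hm hA).2,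
    fun A _ hA => ⟨(sym_one hm hA).1, (main φ hm h).2 A (sym_one hm hA).2⟩⟩

end H72G
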